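import Pool.Agent.H47PS.Matroid

/-!
# Swap theorem with a polynomial length: final form (helper47)
-/

set_option autoImplicit false

namespace Pool.Agent.H47PS

open Finset Pool.Agent.H68Rg

/-- The absolute value of the determinant of the vectors `φ (x 0), ..., φ (x (r - 1))`. -/
noncomputable def absDet {α : Type*} {r : ℕ} (φ : α → Fin r → ℂ) (x : Fin r → α) : ℝ :=
  ‖(Matrix.of fun i => φ (x i)).det‖

/-- `range x` and `range y` have `r` elements each, the union of `B` and `B'` as their union and the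
intersection of `B` and `B'` as their intersection. -/
def Splits {α : Type*} {r : ℕ} (B B' : Set α) (x y : Fin r → α) : Prop :=
  Function.Injective x ∧ Function.Injective y ∧
    Set.range x ∪ Set.range y = B ∪ B' ∧ Set.range x ∩ Set.range y = B ∩ B'

/-- A sequence of `N` symmetric exchanges leads from `(B, B')` to `(B', B)`, where
`(1 + 2 / n) ^ N ≤ (n + 1) p L` and `N ≤ n ^ 2 + s ⌈n / 2⌉` whenever `L ≤ 2 ^ s`; here
`n = |B \ B'|` and `p` is the number of pairs of bases with the same union and intersection. -/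
def ShortSwap {α : Type*} (M : Matroid α) (B B' : Set α) (L : ℝ) : Prop :=
  ∃ N : ℕ, (∃ P : ℕ → Set α × Set α, P 0 = (B, B') ∧ P N = (B', B) ∧
      ∀ i < N, H11SW.SymExchange M (P i) (P (i + 1))) ∧
    (1 + 2 / ((B \ B').ncard : ℝ)) ^ N ≤ ((B \ B').ncard + 1) * (Pairs M B B').ncard * L ∧
    ∀ s : ℕ, L ≤ 2 ^ s → N ≤ (B \ B').ncard ^ 2 + s * (((B \ B').ncard + 1) / 2)

theorem ncard_range {α : Type*} {r : ℕ} {x : Fin r → α} (hx : Function.Injective x) :
    (Set.range x).ncard = r := by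
  rw [← Set.image_univ, hx.injOn.ncard_image, Set.ncard_univ, Nat.card_eq_fintype_card,
    Fintype.card_fin]

theorem final1 {α : Type*} {r : ℕ} (M : Matroid α)
    (φ : α → Fin r → ℂ) (hφ : ∀ X ⊆ M.E, M.Indep X ↔ LinearIndepOn ℂ φ X)
    (b b' : Fin r → α) (hb : Function.Injective b) (hb' : Function.Injective b')
    (hB : M.IsBase (Set.range b)) (hB' : M.IsBase (Set.range b')) {L : ℝ}
    (hs : ∀ x y : Fin r → α, Splits (Set.range b) (Set.range b') x y →
      (absDet φ x * absDet φ y) ^ 2 ≤ L * (absDet φ b * absDet φ b') ^ 2) :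
    ShortSwap M (Set.range b) (Set.range b') L := by
  obtain ⟨N, h0, h1, h2, h3⟩ := matroid_half M φ hφ b b' hb hb' hB hB'
    fun x y h1 h2 h3 h4 => hs x y ⟨h1, h2, h3, h4⟩
  refine ⟨N, h3, h1, fun s hL => ?_⟩
  rcases Nat.eq_zero_or_pos (Set.range b \ Set.range b').ncard with h4 | h4
  · rw [h0 h4]
    exact Nat.zero_le _
  · refine H2Swap.len_two h4 (h2.trans ?_)
    exact mul_le_mul_of_nonneg_left hL (by positivity)

theorem absDet_ne_zero {α : Type*} {r : ℕ} {M : Matroid α}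
    {φ : α → Fin r → ℂ} (hφ : ∀ X ⊆ M.E, M.Indep X ↔ LinearIndepOn ℂ φ X)
    {b : Fin r → α} (hb : Function.Injective b) (hB : M.IsBase (Set.range b)) :
    absDet φ b ≠ 0 := by
  have l1 : LinearIndependent ℂ (φ ∘ b) :=
    (linearIndepOn_range_iff hb φ).1 ((hφ _ hB.subset_ground).1 hB.indep)
  have := Matrix.linearIndependent_rows_iff_isUnit.1
    (show LinearIndependent ℂ (Matrix.of fun i => φ (b i)).row from l1)
  exact norm_ne_zero_iff.2 ((Matrix.isUnit_iff_isUnit_det _).1 this).ne_zero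

theorem final2 {α : Type*} {r : ℕ} (M : Matroid α)
    (φ : α → Fin r → ℂ) (hφ : ∀ X ⊆ M.E, M.Indep X ↔ LinearIndepOn ℂ φ X)
    (b b' : Fin r → α) (hb : Function.Injective b) (hb' : Function.Injective b')
    (hB : M.IsBase (Set.range b)) (hB' : M.IsBase (Set.range b')) {D : ℝ}
    (hD : ∀ x : Fin r → α, Set.range x ⊆ Set.range b ∪ Set.range b' → absDet φ x = 0 ∨
      (1 ≤ absDet φ x ∧ absDet φ x ≤ D)) :
    ShortSwap M (Set.range b) (Set.range b') (D ^ 4) := by
  refine final1 M φ hφ b b' hb hb' hB hB' fun x y hxy => ?_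
  have hbb := (hD b Set.subset_union_left).resolve_left (absDet_ne_zero hφ hb hB)
  have hbb' := (hD b' Set.subset_union_right).resolve_left (absDet_ne_zero hφ hb' hB')
  have h1 : 1 ≤ absDet φ b := hbb.1
  have h2 : 1 ≤ absDet φ b' := hbb'.1
  have h3 : D ≥ 1 := h1.trans hbb.2
  have h4 : ∀ z : Fin r → α, Set.range z ⊆ Set.range b ∪ Set.range b' →
      0 ≤ absDet φ z ∧ absDet φ z ≤ D := by
    intro z hz
    refine ⟨norm_nonneg _, ?_⟩
    rcases hD z hz with h | h
    · rw [h]; linarith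
    · exact h.2
  obtain ⟨hx0, hx1⟩ := h4 x (hxy.2.2.1 ▸ Set.subset_union_left)
  obtain ⟨hy0, hy1⟩ := h4 y (hxy.2.2.1 ▸ Set.subset_union_right)
  have h5 : absDet φ x * absDet φ y ≤ D * D := mul_le_mul hx1 hy1 hy0 (by linarith)
  have h6 : (absDet φ x * absDet φ y) ^ 2 ≤ (D * D) ^ 2 :=
    pow_le_pow_left₀ (mul_nonneg hx0 hy0) h5 2
  have h7 : (1 : ℝ) ≤ (absDet φ b * absDet φ b') ^ 2 := by
    have : 1 ≤ absDet φ b * absDet φ b' := by nlinarith
    nlinarith
  calc _ ≤ (D * D) ^ 2 := h6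
    _ = D ^ 4 := by ring
    _ = D ^ 4 * 1 := (mul_one _).symm
    _ ≤ _ := mul_le_mul_of_nonneg_left h7 (by positivity)

theorem final3 {α : Type*} {r : ℕ} (M : Matroid α)
    (φ : α → Fin r → ℂ) (hφ : ∀ X ⊆ M.E, M.Indep X ↔ LinearIndepOn ℂ φ X)
    (b b' : Fin r → α) (hb : Function.Injective b) (hb' : Function.Injective b')
    (hB : M.IsBase (Set.range b)) (hB' : M.IsBase (Set.range b')) :
    ∃ X Y : Set α, M.IsBase X ∧ M.IsBase Y ∧ X ∪ Y = Set.range b ∪ Set.range b' ∧
      X ∩ Y = Set.range b ∩ Set.range b' ∧ ShortSwap M X Y 1 := by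
  classical
  let Q : Set ((Fin r → α) × (Fin r → α)) :=
    {p | Splits (Set.range b) (Set.range b') p.1 p.2}
  have hfin : Q.Finite := by
    have h1 : (Set.range b ∪ Set.range b').Finite := (Set.finite_range b).union (Set.finite_range b')
    have h2 : (Set.univ.pi fun _ : Fin r => Set.range b ∪ Set.range b').Finite :=
      Set.Finite.pi fun _ => h1
    refine (h2.prod h2).subset ?_
    rintro ⟨x, y⟩ ⟨_, _, h3, _⟩
    refine ⟨fun i _ => ?_, fun i _ => ?_⟩
    · rw [← h3]; exact Or.inl ⟨i, rfl⟩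
    · rw [← h3]; exact Or.inr ⟨i, rfl⟩
  have hne : Q.Nonempty := ⟨(b, b'), hb, hb', rfl, rfl⟩
  obtain ⟨⟨x, y⟩, hxy, hmax⟩ := Set.exists_max_image Q
    (fun p => absDet φ p.1 * absDet φ p.2) hfin hne
  have hxy' : Splits (Set.range b) (Set.range b') x y := hxy
  obtain ⟨hx, hy, hu, hi⟩ := hxy'
  have hpos : absDet φ x * absDet φ y ≠ 0 := by
    have h1 : 0 < absDet φ b * absDet φ b' :=
      mul_pos (lt_of_le_of_ne (norm_nonneg _) (absDet_ne_zero hφ hb hB).symm)
        (lt_of_le_of_ne (norm_nonneg _) (absDet_ne_zero hφ hb' hB').symm)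
    have h2 := hmax (b, b') ⟨hb, hb', rfl, rfl⟩
    exact ne_of_gt (lt_of_lt_of_le h1 h2)
  have hbase : ∀ z : Fin r → α, Function.Injective z → Set.range z ⊆ M.E → absDet φ z ≠ 0 →
      M.IsBase (Set.range z) := by
    intro z hz hzE h0
    have h1 : (Matrix.of fun i => φ (z i)).det ≠ 0 := norm_ne_zero_iff.1 h0
    have h2 := Matrix.linearIndependent_rows_of_det_ne_zero h1
    have h3 : M.Indep (Set.range z) := by
      rw [hφ _ hzE]
      exact (linearIndepOn_range_iff hz φ).2 h2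
    obtain ⟨D, hD, hzD⟩ := h3.exists_isBase_superset
    have h5 : D.ncard = r := by
      rw [hD.ncard_eq_ncard_of_isBase hB, ncard_range hb]
    have h7 : D.Finite := by
      rw [← Set.encard_lt_top_iff, hD.encard_eq_encard_of_isBase hB, Set.encard_lt_top_iff]
      exact Set.finite_range b
    have h8 := Set.eq_of_subset_of_ncard_le hzD (by rw [h5, ncard_range hz]) h7
    rw [h8]
    exact hD
  have hU : Set.range x ∪ Set.range y ⊆ M.E := by
    rw [hu]
    exact Set.union_subset hB.subset_ground hB'.subset_ground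
  have hX := hbase x hx (Set.subset_union_left.trans hU) (left_ne_zero_of_mul hpos)
  have hY := hbase y hy (Set.subset_union_right.trans hU) (right_ne_zero_of_mul hpos)
  refine ⟨Set.range x, Set.range y, hX, hY, hu, hi, ?_⟩
  refine final1 M φ hφ x y hx hy hX hY ?_
  intro x' y' h'
  rw [one_mul]
  have h1 := hmax (x', y') ⟨h'.1, h'.2.1, h'.2.2.1.trans hu, h'.2.2.2.trans hi⟩
  exact pow_le_pow_left₀ (mul_nonneg (norm_nonneg _) (norm_nonneg _)) h1 2

end Pool.Agent.H47PS
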