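import Pool.Agent.H20Sw.Mask
import Pool.Agent.H23Sw.Loc
import Pool.Agent.H47PS.Final

/-!
# Bounded cross ratios of the bases give bounded cross ratios of the minors (helper47)
-/

set_option autoImplicit false

namespace Pool.Agent.H47PS.LB

open Finset Pool.Agent.H47PS

variable {r : ℕ}

/-- The rows of a minor, completed by unit vectors. -/
noncomputable def rws {k : ℕ} (f g : Fin k → Fin r) : Fin r → Fin r ⊕ Fin r :=
  Function.extend g (fun t => Sum.inr (f t)) Sum.inl

theorem rws_apply {k : ℕ} {f g : Fin k → Fin r} (hg : Function.Injective g) (t : Fin k) :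
    rws f g (g t) = Sum.inr (f t) := hg.extend_apply _ _ t

theorem rws_apply' {k : ℕ} {f g : Fin k → Fin r} {j : Fin r} (h : ¬ ∃ t, g t = j) :
    rws f g j = Sum.inl j := Function.extend_apply' _ _ _ h

theorem det_rws (A : Matrix (Fin r) (Fin r) ℂ) {k : ℕ} (f g : Fin k → Fin r)
    (hg : Function.Injective g) :
    (A.submatrix f g).det = (Matrix.of fun j => H20Sw.vecs A (rws f g j)).det := by
  classical
  set y := rws f g with hy
  have hy1 : ∀ t, y (g t) = Sum.inr (f t) := rws_apply hg
  have hy2 : ∀ j, (¬ ∃ t, g t = j) → y j = Sum.inl j := fun j h => rws_apply' h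
  set P : Matrix (Fin r) (Fin r) ℂ := Matrix.of fun j => H20Sw.vecs A (y j) with hP
  have h1 := Matrix.twoBlockTriangular_det P (fun j => ∃ t, g t = j) (by
    intro i hi j hj
    change H20Sw.vecs A (y i) j = 0
    rw [hy2 i hi]
    have hij : j ≠ i := fun h => hi (h ▸ hj)
    simp [H20Sw.vecs, hij])
  have h2 : (P.toSquareBlockProp fun i => ¬ ∃ t, g t = i).det = 1 := by
    have : (P.toSquareBlockProp fun i => ¬ ∃ t, g t = i) = 1 := by
      ext ⟨i, hi⟩ ⟨j, hj⟩
      change H20Sw.vecs A (y i) j = _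
      rw [hy2 i hi]
      rcases eq_or_ne j i with rfl | hij
      · simp [H20Sw.vecs]
      · have : (⟨i, hi⟩ : {i // ¬ ∃ t, g t = i}) ≠ ⟨j, hj⟩ := fun h => hij (congrArg Subtype.val h).symm
        rw [Matrix.one_apply_ne this]
        simp [H20Sw.vecs, hij]
    rw [this, Matrix.det_one]
  let e : Fin k ≃ {j // ∃ t, g t = j} :=
    Equiv.ofBijective (fun t => ⟨g t, t, rfl⟩)
      ⟨fun a b h => hg (congrArg Subtype.val h), fun ⟨j, t, ht⟩ => ⟨t, Subtype.ext ht⟩⟩
  have h3 : (P.toSquareBlockProp fun j => ∃ t, g t = j).det = (A.submatrix f g).det := by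
    rw [← Matrix.det_submatrix_equiv_self e]
    congr 1
    ext a b
    change H20Sw.vecs A (y (g a)) (g b) = A (f a) (g b)
    rw [hy1]
    rfl
  rw [h2, mul_one, h3] at h1
  exact h1.symm

/-- How often `x` takes the value `e`. -/
noncomputable def cnt {ι α : Type*} [Fintype ι] (x : ι → α) (e : α) : ℕ := by
  classical
  exact ∑ i, if x i = e then 1 else 0

theorem cnt_pos {ι α : Type*} [Fintype ι] {x : ι → α} (hx : Function.Injective x) {e : α}
    (h : e ∈ Set.range x) : cnt x e = 1 := by
  classical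
  obtain ⟨i, rfl⟩ := h
  unfold cnt
  rw [Finset.sum_eq_single i (fun j _ hj => if_neg fun h => hj (hx h))
    (fun h => absurd (mem_univ i) h)]
  exact if_pos rfl

theorem cnt_zero {ι α : Type*} [Fintype ι] {x : ι → α} {e : α}
    (h : e ∉ Set.range x) : cnt x e = 0 := by
  classical
  unfold cnt
  exact Finset.sum_eq_zero fun i _ => if_neg fun h' => h ⟨i, h'⟩

theorem cnt_cons {α : Type*} {k : ℕ} (b : Fin r → α) (a : Fin r) (f : Fin k → Fin r) (e : α) :
    cnt (fun t : Fin (k + 1) => b ((Fin.cons a f : Fin (k + 1) → Fin r) t)) e =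
      cnt (fun _ : Fin 1 => b a) e + cnt (fun t => b (f t)) e := by
  classical
  unfold cnt
  rw [Fin.sum_univ_succ]
  simp

theorem cnt_rws {α : Type*} {k : ℕ} (b b' : Fin r → α) (f g : Fin k → Fin r)
    (hg : Function.Injective g) (e : α) :
    cnt (fun j => Sum.elim b b' (rws f g j)) e + cnt (fun t => b (g t)) e =
      cnt b e + cnt (fun t => b' (f t)) e := by
  classical
  unfold cnt
  have h1 := Finset.sum_add_sum_compl (univ.image g)
    (fun j => if Sum.elim b b' (rws f g j) = e then 1 else 0)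
  have h2 := Finset.sum_add_sum_compl (univ.image g) (fun j => if b j = e then 1 else 0)
  have h3 : ∑ j ∈ univ.image g, (if Sum.elim b b' (rws f g j) = e then 1 else 0) =
      ∑ t, if b' (f t) = e then 1 else 0 := by
    rw [Finset.sum_image fun _ _ _ _ h => hg h]
    refine Finset.sum_congr rfl fun t _ => ?_
    rw [rws_apply hg]
    rfl
  have h4 : ∑ j ∈ univ.image g, (if b j = e then 1 else 0) = ∑ t, if b (g t) = e then 1 else 0 := by
    rw [Finset.sum_image fun _ _ _ _ h => hg h]
  have h5 : ∑ j ∈ (univ.image g)ᶜ, (if Sum.elim b b' (rws f g j) = e then 1 else 0) =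
      ∑ j ∈ (univ.image g)ᶜ, if b j = e then 1 else 0 := by
    refine Finset.sum_congr rfl fun j hj => ?_
    rw [rws_apply' (by simpa using hj)]
    rfl
  beta_reduce at *
  omega

theorem splits_of_cnt {α : Type*} {x y z w : Fin r → α} (hx : Function.Injective x)
    (hy : Function.Injective y) (hz : Function.Injective z) (hw : Function.Injective w)
    (h : ∀ e, cnt z e + cnt w e = cnt x e + cnt y e) :
    Splits (Set.range x) (Set.range y) z w := by
  refine ⟨hz, hw, ?_, ?_⟩
  · ext e
    have := h e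
    by_cases h1 : e ∈ Set.range x <;> by_cases h2 : e ∈ Set.range y <;>
      by_cases h3 : e ∈ Set.range z <;> by_cases h4 : e ∈ Set.range w <;>
      simp only [cnt_pos, cnt_zero, h1, h2, h3, h4, hx, hy, hz, hw, not_false_eq_true, Set.mem_union,
        or_self, or_true, true_or] at this ⊢ <;> omega
  · ext e
    have := h e
    by_cases h1 : e ∈ Set.range x <;> by_cases h2 : e ∈ Set.range y <;>
      by_cases h3 : e ∈ Set.range z <;> by_cases h4 : e ∈ Set.range w <;>
      simp only [cnt_pos, cnt_zero, h1, h2, h3, h4, hx, hy, hz, hw, not_false_eq_true, Set.mem_inter_iff,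
        and_self, and_true, and_false] at this ⊢ <;> omega

theorem inj_of_det {α : Type*} {φ : α → Fin r → ℂ} {x : Fin r → α} (h : absDet φ x ≠ 0) :
    Function.Injective x := by
  intro i j hij
  by_contra hne
  apply h
  unfold absDet
  rw [Matrix.det_zero_of_row_eq hne (by
    ext l
    simp only [Matrix.of_apply, hij]), norm_zero]

theorem isBase_of_det {α : Type*} {M : Matroid α} {φ : α → Fin r → ℂ}
    (hφ : ∀ X ⊆ M.E, M.Indep X ↔ LinearIndepOn ℂ φ X) {b : Fin r → α}
    (hb : Function.Injective b) (hB : M.IsBase (Set.range b)) {x : Fin r → α}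
    (hx : Set.range x ⊆ M.E) (h : absDet φ x ≠ 0) : M.IsBase (Set.range x) := by
  have hinj := inj_of_det h
  have h1 : (Matrix.of fun i => φ (x i)).det ≠ 0 := norm_ne_zero_iff.1 h
  have h2 : LinearIndependent ℂ (φ ∘ x) := Matrix.linearIndependent_rows_of_det_ne_zero h1
  have h4 : M.Indep (Set.range x) := by
    rw [hφ _ hx]
    exact (linearIndepOn_range_iff hinj φ).2 h2
  obtain ⟨D, hD, hAD⟩ := h4.exists_isBase_superset
  have h5 : D.ncard = r := by
    rw [hD.ncard_eq_ncard_of_isBase hB, ncard_range hb]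
  have h7 : D.Finite := by
    rw [← Set.encard_lt_top_iff, hD.encard_eq_encard_of_isBase hB, Set.encard_lt_top_iff]
    exact Set.finite_range b
  have h8 := Set.eq_of_subset_of_ncard_le hAD (by rw [h5, ncard_range hinj]) h7
  rw [h8]
  exact hD

theorem absDet_congr {α : Type*} {φ : α → Fin r → ℂ} {x z : Fin r → α}
    (hz : Function.Injective z) (h : Set.range z ⊆ Set.range x) : absDet φ z = absDet φ x := by
  choose s hs using fun i => h ⟨i, rfl⟩
  have hinj : Function.Injective s := by
    intro i j hij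
    apply hz
    rw [← hs, ← hs, hij]
  let σ : Equiv.Perm (Fin r) := Equiv.ofBijective s (Finite.injective_iff_bijective.1 hinj)
  have h1 := Matrix.det_permute σ (Matrix.of fun i => φ (x i))
  have h2 : (Matrix.of fun i => φ (x i)).submatrix σ id = Matrix.of fun i => φ (z i) := by
    ext i j
    simp only [Matrix.submatrix_apply, Matrix.of_apply, id]
    exact congrFun (congrArg φ (hs i)) j
  rw [h2] at h1
  unfold absDet
  rw [h1, norm_mul]
  rcases Int.units_eq_one_or (Equiv.Perm.sign σ) with h3 | h3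
  · rw [h3]; simp
  · rw [h3]; simp

/-- Pairs at distance at most one. -/
theorem near {α : Type*} {x y z w : Fin r → α} (hx : Function.Injective x)
    (hz : Function.Injective z) (hw : Function.Injective w)
    (hs : Set.range z ∪ Set.range w = Set.range x ∪ Set.range y)
    (hi : Set.range z ∩ Set.range w = Set.range x ∩ Set.range y)
    (h1 : (Set.range x \ Set.range y).ncard ≤ 1) :
    (Set.range z ⊆ Set.range x ∧ Set.range w ⊆ Set.range y) ∨
      (Set.range z ⊆ Set.range y ∧ Set.range w ⊆ Set.range x) := by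
  have hfin : (Set.range x \ Set.range y).Finite := (Set.finite_range x).sdiff
  have hsub := (Set.ncard_le_one hfin).1 h1
  have hcase : Set.range x ⊆ Set.range z ∨ Set.range x ⊆ Set.range w := by
    by_contra hcon
    push Not at hcon
    obtain ⟨hc1, hc2⟩ := hcon
    obtain ⟨p, hp, hpz⟩ := Set.not_subset.1 hc1
    obtain ⟨q, hq, hqw⟩ := Set.not_subset.1 hc2
    have hpy : p ∉ Set.range y := fun h => hpz ((hi ▸ (⟨hp, h⟩ : p ∈ Set.range x ∩ Set.range y) :
      p ∈ Set.range z ∩ Set.range w)).1
    have hqy : q ∉ Set.range y := fun h => hqw ((hi ▸ (⟨hq, h⟩ : q ∈ Set.range x ∩ Set.range y) :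
      q ∈ Set.range z ∩ Set.range w)).2
    have hpq := hsub p ⟨hp, hpy⟩ q ⟨hq, hqy⟩
    subst hpq
    have : p ∈ Set.range z ∪ Set.range w := hs ▸ Or.inl hp
    rcases this with h | h
    · exact hpz h
    · exact hqw h
  rcases hcase with h | h
  · left
    have e : Set.range x = Set.range z := Set.eq_of_subset_of_ncard_le h
      (by rw [ncard_range hx, ncard_range hz]) (Set.finite_range z)
    refine ⟨e ▸ le_rfl, fun p hp => ?_⟩
    have h2 : p ∈ Set.range x ∪ Set.range y := hs ▸ Or.inr hp
    rcases h2 with h3 | h3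
    · exact (hi ▸ (⟨h h3, hp⟩ : p ∈ Set.range z ∩ Set.range w) :
        p ∈ Set.range x ∩ Set.range y).2
    · exact h3
  · right
    have e : Set.range x = Set.range w := Set.eq_of_subset_of_ncard_le h
      (by rw [ncard_range hx, ncard_range hw]) (Set.finite_range w)
    refine ⟨fun p hp => ?_, e ▸ le_rfl⟩
    have h2 : p ∈ Set.range x ∪ Set.range y := hs ▸ Or.inl hp
    rcases h2 with h3 | h3
    · exact (hi ▸ (⟨hp, h h3⟩ : p ∈ Set.range z ∩ Set.range w) :
        p ∈ Set.range x ∩ Set.range y).2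
    · exact h3

/-- The hypothesis for pairs at distance two gives the bound for pairs at distance at most two. -/
theorem upgrade {α : Type*} {M : Matroid α} {φ : α → Fin r → ℂ}
    (hφ : ∀ X ⊆ M.E, M.Indep X ↔ LinearIndepOn ℂ φ X) {b b' : Fin r → α}
    (hb : Function.Injective b) (hB : M.IsBase (Set.range b)) (hB' : M.IsBase (Set.range b'))
    {c : ℝ} (hc1 : 1 ≤ c)
    (hc : ∀ x y z w : Fin r → α, Function.Injective x → Function.Injective y →
      M.IsBase (Set.range x) → M.IsBase (Set.range y) →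
      Set.range x ∪ Set.range y ⊆ Set.range b ∪ Set.range b' →
      (Set.range x \ Set.range y).ncard = 2 → Splits (Set.range x) (Set.range y) z w →
      absDet φ z * absDet φ w ≤ c * (absDet φ x * absDet φ y))
    {x y z w : Fin r → α} (hx : absDet φ x ≠ 0) (hy : absDet φ y ≠ 0) (hz : absDet φ z ≠ 0)
    (hw : absDet φ w ≠ 0) (hxU : Set.range x ⊆ Set.range b ∪ Set.range b')
    (hyU : Set.range y ⊆ Set.range b ∪ Set.range b')
    (h : ∀ e, cnt z e + cnt w e = cnt x e + cnt y e)
    (h2 : (Set.range x \ Set.range y).ncard ≤ 2) :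
    absDet φ z * absDet φ w ≤ c * (absDet φ x * absDet φ y) := by
  have ix := inj_of_det hx
  have iy := inj_of_det hy
  have iz := inj_of_det hz
  have iw := inj_of_det hw
  have hE : Set.range b ∪ Set.range b' ⊆ M.E := Set.union_subset hB.subset_ground hB'.subset_ground
  have hs := splits_of_cnt ix iy iz iw h
  rcases h2.lt_or_eq with h3 | h3
  · have h4 : 0 ≤ absDet φ x * absDet φ y := mul_nonneg (norm_nonneg _) (norm_nonneg _)
    have h5 : absDet φ z * absDet φ w = absDet φ x * absDet φ y := by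
      rcases near ix iz iw hs.2.2.1 hs.2.2.2 (Nat.le_of_lt_succ h3) with ⟨h6, h7⟩ | ⟨h6, h7⟩
      · rw [absDet_congr iz h6, absDet_congr iw h7]
      · rw [absDet_congr iz h6, absDet_congr iw h7, mul_comm]
    rw [h5]
    nlinarith
  · exact hc x y z w ix iy (isBase_of_det hφ hb hB (hxU.trans hE) hx)
      (isBase_of_det hφ hb hB (hyU.trans hE) hy) (Set.union_subset hxU hyU) h3 hs

theorem range_rws {α : Type*} {k : ℕ} (b b' : Fin r → α) (f g : Fin k → Fin r) :
    Set.range (fun j => Sum.elim b b' (rws f g j)) ⊆ Set.range b ∪ Set.range b' := by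
  rintro _ ⟨j, rfl⟩
  rcases hyj : rws f g j with i | i
  · exact Or.inl ⟨i, by simp [hyj]⟩
  · exact Or.inr ⟨i, by simp [hyj]⟩

theorem ncard_le_two {α : Type*} {S : Set α} {p q : α} (h : S ⊆ {p, q}) : S.ncard ≤ 2 :=
  (Set.ncard_le_ncard h (Set.toFinite _)).trans (by
    have := Set.ncard_insert_le p {q}
    rw [Set.ncard_singleton] at this
    exact this)

theorem cnt_ne {α : Type*} {p e : α} (h : e ≠ p) : cnt (fun _ : Fin 1 => p) e = 0 :=
  cnt_zero (by rintro ⟨_, h'⟩; exact h h'.symm)

/-- **The bridge.** -/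
theorem loc {α : Type*} {M : Matroid α} {φ : α → Fin r → ℂ}
    (hφ : ∀ X ⊆ M.E, M.Indep X ↔ LinearIndepOn ℂ φ X) {b b' : Fin r → α}
    (hb : Function.Injective b) (hB : M.IsBase (Set.range b)) (hB' : M.IsBase (Set.range b'))
    {c : ℝ} (hc1 : 1 ≤ c)
    (hc : ∀ x y z w : Fin r → α, Function.Injective x → Function.Injective y →
      M.IsBase (Set.range x) → M.IsBase (Set.range y) →
      Set.range x ∪ Set.range y ⊆ Set.range b ∪ Set.range b' →
      (Set.range x \ Set.range y).ncard = 2 → Splits (Set.range x) (Set.range y) z w →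
      absDet φ z * absDet φ w ≤ c * (absDet φ x * absDet φ y))
    (A : Matrix (Fin r) (Fin r) ℂ)
    (hcoord : ∀ a : Fin r ⊕ Fin r, Matrix.vecMul (H20Sw.vecs A a)
      (Matrix.of fun i => φ (b i)) = φ (Sum.elim b b' a)) : H23Sw.Loc c A := by
  classical
  set P : Matrix (Fin r) (Fin r) ℂ := Matrix.of fun i => φ (b i) with hP
  have hPpos : 0 < ‖P.det‖ := lt_of_le_of_ne (norm_nonneg _) (absDet_ne_zero hφ hb hB).symm
  have key : ∀ (k : ℕ) (f g : Fin k → Fin r), Function.Injective g →
      absDet φ (fun j => Sum.elim b b' (rws f g j)) = ‖(A.submatrix f g).det‖ * ‖P.det‖ := by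
    intro k f g hg
    rw [det_rws A f g hg, ← norm_mul, ← Matrix.det_mul]
    unfold absDet
    congr 2
    ext i j
    exact (congrFun (hcoord (rws f g i)) j).symm
  intro k f g a a' d d' hf hg hE h1 h2
  have gd := Fin.cons_injective_iff.1 hg
  have gd' := Fin.cons_injective_iff.1 gd.2
  have g0 : Function.Injective g := gd'.2
  have g1 : Function.Injective (Fin.cons d g : Fin (k + 1) → Fin r) := by
    rw [Fin.cons_injective_iff]
    refine ⟨fun h => gd.1 ?_, g0⟩
    obtain ⟨t, ht⟩ := h
    exact ⟨t.succ, by rw [Fin.cons_succ]; exact ht⟩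
  have g2 : Function.Injective (Fin.cons d' g : Fin (k + 1) → Fin r) := gd.2
  have k0 := key k f g g0
  have kad := key (k + 1) (Fin.cons a f) (Fin.cons d g) g1
  have kad' := key (k + 1) (Fin.cons a f) (Fin.cons d' g) g2
  have ka'd := key (k + 1) (Fin.cons a' f) (Fin.cons d g) g1
  have ka'd' := key (k + 1) (Fin.cons a' f) (Fin.cons d' g) g2
  have kD := key (k + 2) (Fin.cons a (Fin.cons a' f : Fin (k + 1) → Fin r))
    (Fin.cons d (Fin.cons d' g : Fin (k + 1) → Fin r)) hg
  have nz : ∀ {u v : ℝ}, u = v * ‖P.det‖ → v ≠ 0 → u ≠ 0 := by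
    intro u v h h'
    rw [h]
    exact mul_ne_zero h' hPpos.ne'
  have cad := fun e => cnt_rws b b' (Fin.cons a f : Fin (k + 1) → Fin r) (Fin.cons d g) g1 e
  have cad' := fun e => cnt_rws b b' (Fin.cons a f : Fin (k + 1) → Fin r) (Fin.cons d' g) g2 e
  have ca'd := fun e => cnt_rws b b' (Fin.cons a' f : Fin (k + 1) → Fin r) (Fin.cons d g) g1 e
  have ca'd' := fun e => cnt_rws b b' (Fin.cons a' f : Fin (k + 1) → Fin r) (Fin.cons d' g) g2 e
  have c0 := fun e => cnt_rws b b' f g g0 e
  have cD := fun e => cnt_rws b b' (Fin.cons a (Fin.cons a' f : Fin (k + 1) → Fin r) :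
    Fin (k + 2) → Fin r) (Fin.cons d (Fin.cons d' g : Fin (k + 1) → Fin r)) hg e
  simp only [cnt_cons] at cad cad' ca'd ca'd' cD
  constructor
  · intro h3 h4
    have hup := upgrade hφ hb hB hB' hc1 hc (nz kad' (norm_ne_zero_iff.2 h3))
      (nz ka'd (norm_ne_zero_iff.2 h4)) (nz kad (norm_ne_zero_iff.2 h1))
      (nz ka'd' (norm_ne_zero_iff.2 h2)) (range_rws b b' _ _) (range_rws b b' _ _)
      (by
        intro e
        have := cad e
        have := cad' e
        have := ca'd e
        have := ca'd' e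
        omega)
      (by
        refine ncard_le_two (p := b' a) (q := b d) fun e he => ?_
        by_contra hcon
        have hcon' : ¬ (e = b' a ∨ e = b d) := hcon
        push Not at hcon'
        have e1 := cad' e
        have e2 := ca'd e
        rw [cnt_pos (inj_of_det (nz kad' (norm_ne_zero_iff.2 h3))) he.1] at e1
        rw [cnt_zero he.2] at e2
        rw [cnt_ne hcon'.1] at e1
        rw [cnt_ne hcon'.2] at e2
        omega)
    rw [kad, ka'd', kad', ka'd] at hup
    rw [norm_mul, norm_mul]
    have hP2 : 0 < ‖P.det‖ * ‖P.det‖ := mul_pos hPpos hPpos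
    refine le_of_mul_le_mul_right ?_ hP2
    linarith [hup]
  · intro h3
    have hup := upgrade hφ hb hB hB' hc1 hc (nz kD (norm_ne_zero_iff.2 h3))
      (nz k0 (norm_ne_zero_iff.2 hE)) (nz kad (norm_ne_zero_iff.2 h1))
      (nz ka'd' (norm_ne_zero_iff.2 h2)) (range_rws b b' _ _) (range_rws b b' _ _)
      (by
        intro e
        have := cad e
        have := ca'd' e
        have := c0 e
        have := cD e
        omega)
      (by
        refine ncard_le_two (p := b' a) (q := b' a') fun e he => ?_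
        by_contra hcon
        have hcon' : ¬ (e = b' a ∨ e = b' a') := hcon
        push Not at hcon'
        have e1 := cD e
        have e2 := c0 e
        rw [cnt_pos (inj_of_det (nz kD (norm_ne_zero_iff.2 h3))) he.1] at e1
        rw [cnt_zero he.2] at e2
        rw [cnt_ne hcon'.1, cnt_ne hcon'.2] at e1
        omega)
    rw [kad, ka'd', kD, k0] at hup
    rw [norm_mul, norm_mul]
    have hP2 : 0 < ‖P.det‖ * ‖P.det‖ := mul_pos hPpos hPpos
    refine le_of_mul_le_mul_right ?_ hP2
    linarith [hup]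

end Pool.Agent.H47PS.LB
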