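import Pool.Agent.H47PS.Dyadic
import Pool.Agent.H23Sw.Cycle

set_option autoImplicit false

namespace Pool.Agent.H47PS

open Finset Pool.Agent.H68Rg

theorem dy_ratio {p q : ℂ} (hp : p ∈ Dy) (hq : q ∈ Dy) (h : p + q = 0 ∨ p + q ∈ Dy) :
    ‖p‖ ≤ 2 * ‖q‖ := by
  obtain ⟨a, ha, ha'⟩ := Dy.norm hp
  obtain ⟨b, hb, hb'⟩ := Dy.norm hq
  by_contra hlt
  rw [not_le] at hlt
  have hq0 : 0 < ‖q‖ := norm_pos_iff.2 (Dy.ne_zero hq)
  rcases h with h | h
  · have : ‖p‖ = ‖q‖ := by rw [eq_neg_of_add_eq_zero_left h, norm_neg]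
    rw [this] at hlt
    linarith
  · obtain ⟨c, hc, hc'⟩ := Dy.norm h
    have h2 : (1 : ℝ) < 2 := by norm_num
    have e1 : ∀ m : ℤ, (2 : ℝ) ^ (m + 1) = 2 * 2 ^ m := fun m => by
      rw [zpow_add₀ two_ne_zero, zpow_one, mul_comm]
    have h1 : b + 1 < a := by
      rw [← zpow_lt_zpow_iff_right₀ h2, e1, ← ha, ← hb]
      exact hlt
    obtain ⟨k, hk⟩ := Int.le.dest (show b + 2 ≤ a by omega)
    have hb4 : ‖p‖ ≥ 4 * ‖q‖ := by
      have : (2 : ℝ) ^ (b + 2) ≤ 2 ^ a := (zpow_le_zpow_iff_right₀ h2).2 (by omega)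
      rw [ha, hb]
      calc (4 : ℝ) * 2 ^ b = 2 ^ (b + 2) := by
            rw [zpow_add₀ two_ne_zero]
            norm_num
            ring
        _ ≤ _ := this
    have h3 : ‖p + q‖ ≥ ‖p‖ - ‖q‖ := by
      have := norm_sub_norm_le p (-q)
      rw [norm_neg, sub_neg_eq_add] at this
      exact this
    have h4 : b + 1 < c := by
      rw [← zpow_lt_zpow_iff_right₀ h2, e1, ← hc, ← hb]
      linarith
    obtain ⟨e, he⟩ := Int.le.dest (show b + 2 ≤ c by omega)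
    have hb0 : (2 : ℂ) ^ b ≠ 0 := zpow_ne_zero _ two_ne_zero
    have ka : (2 : ℂ) ^ a = ((4 * 2 ^ k : ℤ) : ℂ) * 2 ^ b := by
      rw [← hk, zpow_add₀ two_ne_zero, zpow_add₀ two_ne_zero, zpow_natCast]
      push_cast
      norm_num
      ring
    have kc : (2 : ℂ) ^ c = ((4 * 2 ^ e : ℤ) : ℂ) * 2 ^ b := by
      rw [← he, zpow_add₀ two_ne_zero, zpow_add₀ two_ne_zero, zpow_natCast]
      push_cast
      norm_num
      ring
    have fin : ∀ x y z : ℤ, p = x * 2 ^ b → q = y * 2 ^ b → p + q = z * 2 ^ b → x + y = z := by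
      intro x y z h5 h6 h7
      rw [h5, h6, ← add_mul] at h7
      have := mul_right_cancel₀ hb0 h7
      exact_mod_cast this
    obtain ⟨x, hx, hx'⟩ : ∃ x : ℤ, p = x * 2 ^ b ∧ (x = 4 * 2 ^ k ∨ x = -(4 * 2 ^ k)) := by
      rcases ha' with h5 | h5
      · exact ⟨4 * 2 ^ k, by rw [h5, ka], Or.inl rfl⟩
      · exact ⟨-(4 * 2 ^ k), by rw [h5, ka]; push_cast; ring, Or.inr rfl⟩
    obtain ⟨y, hy, hy'⟩ : ∃ y : ℤ, q = y * 2 ^ b ∧ (y = 1 ∨ y = -1) := by
      rcases hb' with h5 | h5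
      · exact ⟨1, by rw [h5]; simp, Or.inl rfl⟩
      · exact ⟨-1, by rw [h5]; simp, Or.inr rfl⟩
    obtain ⟨z, hz, hz'⟩ : ∃ z : ℤ, p + q = z * 2 ^ b ∧ (z = 4 * 2 ^ e ∨ z = -(4 * 2 ^ e)) := by
      rcases hc' with h5 | h5
      · exact ⟨4 * 2 ^ e, by rw [h5, kc], Or.inl rfl⟩
      · exact ⟨-(4 * 2 ^ e), by rw [h5, kc]; push_cast; ring, Or.inr rfl⟩
    have h5 := fin x y z hx hy hz
    generalize (2 : ℤ) ^ k = u at hx'
    generalize (2 : ℤ) ^ e = w at hz'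
    omega

theorem matchRatio : MatchRatio := by
  intro r A H s t hs ht
  refine H23Sw.match_ratio (NormedField.toAbsoluteValue ℂ) Dy 2 (by norm_num) Dy.one
    (fun p hp q hq => Dy.mul hp hq) (fun p hp => Dy.neg hp) (fun p hp q hq h => dy_ratio hp hq h)
    A H s t hs ht

/-- **Dyadic representations.** -/
theorem dyadic_final {α : Type*} {r : ℕ} (M : Matroid α) (φ : α → Fin r → ℂ)
    (hφ : ∀ X ⊆ M.E, M.Indep X ↔ LinearIndepOn ℂ φ X)
    (b b' : Fin r → α) (hb : Function.Injective b) (hb' : Function.Injective b')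
    (hB : M.IsBase (Set.range b)) (hB' : M.IsBase (Set.range b'))
    (hD : ∀ x : Fin r → α, Set.range x ⊆ Set.range b ∪ Set.range b' →
      (Matrix.of fun i => φ (x i)).det = 0 ∨
        ∃ m : ℤ, (Matrix.of fun i => φ (x i)).det = 2 ^ m ∨
          (Matrix.of fun i => φ (x i)).det = -2 ^ m) :
    ShortSwap M (Set.range b) (Set.range b') (((2 * r).factorial * 2 ^ r) ^ 2) :=
  dyadic matchRatio M φ hφ b b' hb hb' hB hB' hD

end Pool.Agent.H47PS
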