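import Pool.Agent.H47PS.Final

/-!
# Dyadic representations: the ratio of the products of determinants is bounded (helper47)
-/

set_option autoImplicit false

namespace Pool.Agent.H47PS

open Finset Pool.Agent.H68Rg

/-- The complex numbers `± 2 ^ m`. -/
def Dy : Set ℂ := {z | ∃ m : ℤ, z = 2 ^ m ∨ z = -2 ^ m}

theorem Dy.mul {p q : ℂ} (hp : p ∈ Dy) (hq : q ∈ Dy) : p * q ∈ Dy := by
  obtain ⟨m, hm⟩ := hp
  obtain ⟨n, hn⟩ := hq
  refine ⟨m + n, ?_⟩
  rw [zpow_add₀ (two_ne_zero)]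
  rcases hm with rfl | rfl <;> rcases hn with rfl | rfl <;> simp

theorem Dy.ne_zero {p : ℂ} (hp : p ∈ Dy) : p ≠ 0 := by
  obtain ⟨m, rfl | rfl⟩ := hp
  · exact zpow_ne_zero _ two_ne_zero
  · exact neg_ne_zero.2 (zpow_ne_zero _ two_ne_zero)

theorem Dy.inv {p : ℂ} (hp : p ∈ Dy) : p⁻¹ ∈ Dy := by
  obtain ⟨m, hm⟩ := hp
  refine ⟨-m, ?_⟩
  rw [zpow_neg]
  rcases hm with rfl | rfl
  · exact Or.inl rfl
  · right
    rw [inv_neg]

theorem Dy.neg {p : ℂ} (hp : p ∈ Dy) : -p ∈ Dy := by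
  obtain ⟨m, rfl | rfl⟩ := hp
  · exact ⟨m, Or.inr rfl⟩
  · exact ⟨m, Or.inl (neg_neg _)⟩

theorem Dy.one : (1 : ℂ) ∈ Dy := ⟨0, Or.inl (by simp)⟩

theorem Dy.norm {p : ℂ} (hp : p ∈ Dy) : ∃ m : ℤ, ‖p‖ = 2 ^ m ∧ (p = 2 ^ m ∨ p = -2 ^ m) := by
  obtain ⟨m, hm⟩ := hp
  refine ⟨m, ?_, hm⟩
  rcases hm with rfl | rfl <;> simp

/-- the two enumerations come from a permutation of the `2 r` elements -/
theorem split_mat {α : Type*} {r : ℕ} (φ : α → Fin r → ℂ) (b b' : Fin r → α) (x y : Fin r → α)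
    (h : Splits (Set.range b) (Set.range b') x y) :
    ∃ A : Finset (Fin r ⊕ Fin r), absDet φ x * absDet φ y =
      ‖(mat (fun a => φ (Sum.elim b b' a)) A).det‖ := by
  classical
  obtain ⟨hx, hy, hu, hi⟩ := h
  have h1 : ∀ i, ∃ a : Fin r ⊕ Fin r, Sum.elim b b' a = x i ∧
      (x i ∈ Set.range b' → a.isRight) := by
    intro i
    by_cases h : x i ∈ Set.range b'
    · obtain ⟨j, hj⟩ := h
      exact ⟨Sum.inr j, hj, fun _ => rfl⟩
    · have : x i ∈ Set.range b ∪ Set.range b' := by rw [← hu]; exact Or.inl ⟨i, rfl⟩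
      obtain ⟨j, hj⟩ := this.resolve_right h
      exact ⟨Sum.inl j, hj, fun h' => absurd h' h⟩
  have h2 : ∀ i, ∃ a : Fin r ⊕ Fin r, Sum.elim b b' a = y i ∧
      (y i ∈ Set.range b → a.isLeft) := by
    intro i
    by_cases h : y i ∈ Set.range b
    · obtain ⟨j, hj⟩ := h
      exact ⟨Sum.inl j, hj, fun _ => rfl⟩
    · have : y i ∈ Set.range b ∪ Set.range b' := by rw [← hu]; exact Or.inr ⟨i, rfl⟩
      obtain ⟨j, hj⟩ := this.resolve_left h
      exact ⟨Sum.inr j, hj, fun h' => absurd h' h⟩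
  choose ξ hξ hξ' using h1
  choose η hη hη' using h2
  have hinj : Function.Injective (Sum.elim ξ η) := by
    refine Function.Injective.sumElim ?_ ?_ ?_
    · intro i j hij
      exact hx (by rw [← hξ i, ← hξ j, hij])
    · intro i j hij
      exact hy (by rw [← hη i, ← hη j, hij])
    · intro i j hij
      have h3 : x i = y j := by rw [← hξ i, ← hη j, hij]
      have h4 : x i ∈ Set.range b ∩ Set.range b' := by
        rw [← hi]
        exact ⟨⟨i, rfl⟩, ⟨j, h3.symm⟩⟩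
      have h5 := hξ' i h4.2
      have h6 := hη' j (h3 ▸ h4.1)
      rw [hij] at h5
      cases hη0 : η j with
      | inl z => rw [hη0] at h5; simp at h5
      | inr z => rw [hη0] at h6; simp at h6
  let τ : Equiv.Perm (Fin r ⊕ Fin r) :=
    Equiv.ofBijective _ (Finite.injective_iff_bijective.1 hinj)
  let A : Finset (Fin r ⊕ Fin r) := univ.filter fun a => (τ.symm a).isLeft
  refine ⟨A, ?_⟩
  have k1 : ∀ i, τ (Sum.inl i) ∈ A := by
    intro i
    simp [A]
  have k2 : ∀ i, τ (Sum.inr i) ∉ A := by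
    intro i
    simp [A]
  rw [norm_det_mat _ A τ k1 k2]
  have e1 : ∀ i, τ (Sum.inl i) = ξ i := fun i => rfl
  have e2 : ∀ i, τ (Sum.inr i) = η i := fun i => rfl
  simp only [absDet, e1, e2, hξ, hη]

/-- Leibniz. -/
theorem leibniz {r : ℕ} (A : Matrix (Fin r) (Fin r) ℂ) (A0 : Finset (Fin r ⊕ Fin r)) {m : ℝ}
    (hm0 : 0 ≤ m) (hm : ∀ σ : Equiv.Perm (Fin r), ∏ j, ‖A j (σ j)‖ ≤ m) :
    ‖(mat (Sum.elim (fun j => (1 : Matrix (Fin r) (Fin r) ℂ) j) (fun j => A j)) A0).det‖ ≤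
      (2 * r).factorial * m := by
  classical
  set E : Fin r ⊕ Fin r → Fin r → ℂ :=
    Sum.elim (fun j => (1 : Matrix (Fin r) (Fin r) ℂ) j) (fun j => A j) with hE
  have key : ∀ τ : Equiv.Perm (Fin r ⊕ Fin r), ∏ a, ‖mat E A0 (τ a) a‖ ≤ m := by
    intro τ
    by_cases h0 : ∃ a, mat E A0 (τ a) a = 0
    · obtain ⟨a, ha⟩ := h0
      rw [Finset.prod_eq_zero (mem_univ a) (by rw [ha, norm_zero])]
      exact hm0
    push Not at h0
    let pr : Fin r ⊕ Fin r → Fin r := Sum.elim id id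
    have hle : ∀ (z : Fin r ⊕ Fin r) (a : Fin r ⊕ Fin r), ‖mat E A0 z a‖ ≤ ‖E a (pr z)‖ := by
      intro z a
      rcases z with i | i
      · by_cases h : a ∈ A0 <;> simp [mat, h, pr]
      · by_cases h : a ∈ A0 <;> simp [mat, h, pr]
    have hl : ∀ j, pr (τ (Sum.inl j)) = j := by
      intro j
      by_contra hne
      apply h0 (Sum.inl j)
      have h1 := hle (τ (Sum.inl j)) (Sum.inl j)
      have hne' : ¬ j = pr (τ (Sum.inl j)) := fun h => hne h.symm
      have h2 : E (Sum.inl j) (pr (τ (Sum.inl j))) = 0 := by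
        simp [hE, Matrix.one_apply, hne']
      rw [h2, norm_zero] at h1
      exact norm_le_zero_iff.1 h1
    let σ0 : Fin r → Fin r := fun j => pr (τ (Sum.inr j))
    have hσ : Function.Injective σ0 := by
      intro j j' hjj
      by_contra hne
      have h1 : τ (Sum.inr j) ≠ τ (Sum.inr j') := fun h => hne (by simpa using τ.injective h)
      have h2 := hl (σ0 j)
      have h3 : pr (τ (Sum.inr j)) = σ0 j := rfl
      have h4 : pr (τ (Sum.inr j')) = σ0 j := hjj.symm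
      have h5 : τ (Sum.inl (σ0 j)) ≠ τ (Sum.inr j) := fun h => by simpa using τ.injective h
      have h6 : τ (Sum.inl (σ0 j)) ≠ τ (Sum.inr j') := fun h => by simpa using τ.injective h
      revert h1 h2 h3 h4 h5 h6
      generalize σ0 j = i
      generalize τ (Sum.inr j) = u
      generalize τ (Sum.inr j') = v
      generalize τ (Sum.inl i) = t
      intro h1 h2 h3 h4 h5 h6
      rcases u with u | u <;> rcases v with v | v <;> rcases t with t | t <;>
        simp_all [pr]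
    let σ : Equiv.Perm (Fin r) := Equiv.ofBijective σ0 (Finite.injective_iff_bijective.1 hσ)
    rw [Fintype.prod_sum_type]
    have h1 : ∏ j, ‖mat E A0 (τ (Sum.inl j)) (Sum.inl j)‖ ≤ 1 := by
      refine Finset.prod_le_one (fun _ _ => norm_nonneg _) fun j _ => ?_
      refine (hle _ _).trans ?_
      rw [hl]
      simp [hE]
    have h2 : ∏ j, ‖mat E A0 (τ (Sum.inr j)) (Sum.inr j)‖ ≤ ∏ j, ‖A j (σ j)‖ :=
      Finset.prod_le_prod (fun _ _ => norm_nonneg _) fun j _ => hle _ _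
    calc _ ≤ 1 * ∏ j, ‖A j (σ j)‖ :=
          mul_le_mul h1 h2 (Finset.prod_nonneg fun _ _ => norm_nonneg _) zero_le_one
      _ ≤ m := by rw [one_mul]; exact hm σ
  rw [Matrix.det_apply]
  calc ‖∑ τ : Equiv.Perm (Fin r ⊕ Fin r), Equiv.Perm.sign τ • ∏ a, mat E A0 (τ a) a‖
      ≤ ∑ τ : Equiv.Perm (Fin r ⊕ Fin r), ‖Equiv.Perm.sign τ • ∏ a, mat E A0 (τ a) a‖ :=
        norm_sum_le _ _
    _ ≤ ∑ _τ : Equiv.Perm (Fin r ⊕ Fin r), m := by
        refine Finset.sum_le_sum fun τ _ => ?_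
        have : ‖Equiv.Perm.sign τ • ∏ a, mat E A0 (τ a) a‖ = ∏ a, ‖mat E A0 (τ a) a‖ := by
          rw [← norm_prod]
          rcases Int.units_eq_one_or (Equiv.Perm.sign τ) with h | h <;> simp [h]
        rw [this]
        exact key τ
    _ = _ := by
        rw [Finset.sum_const, card_univ, Fintype.card_perm, Fintype.card_sum, Fintype.card_fin,
          nsmul_eq_mul, two_mul]

/-- Coordinates in the first basis. -/
theorem det_coord {r : ℕ} (Q A : Matrix (Fin r) (Fin r) ℂ) (A0 : Finset (Fin r ⊕ Fin r)) :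
    (mat (Sum.elim (fun j => Q j) (fun j => (A * Q) j)) A0).det = Q.det ^ 2 *
      (mat (Sum.elim (fun j => (1 : Matrix (Fin r) (Fin r) ℂ) j) (fun j => A j)) A0).det := by
  have e : mat (Sum.elim (fun j => Q j) (fun j => (A * Q) j)) A0 =
      Matrix.fromBlocks Q.transpose 0 0 Q.transpose *
        mat (Sum.elim (fun j => (1 : Matrix (Fin r) (Fin r) ℂ) j) (fun j => A j)) A0 := by
    ext z a
    by_cases ha : a ∈ A0
    · rcases z with i | i <;> rcases a with j | j <;>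
        simp [mat, Matrix.mul_apply, Matrix.fromBlocks, ha, Matrix.one_apply, mul_comm]
    · rcases z with i | i <;> rcases a with j | j <;>
        simp [mat, Matrix.mul_apply, Matrix.fromBlocks, ha, Matrix.one_apply, mul_comm]
  rw [e, Matrix.det_mul, Matrix.det_fromBlocks_zero₂₁, Matrix.det_transpose, sq]

/-- Minors of the coordinate matrix are determinants. -/
theorem det_replace {r k : ℕ} (A : Matrix (Fin r) (Fin r) ℂ) (f g : Fin k → Fin r)
    (hg : Function.Injective g) (X : Matrix (Fin r) (Fin r) ℂ)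
    (h1 : ∀ t, X (g t) = A (f t)) (h2 : ∀ i, i ∉ Set.range g → X i = (1 : Matrix _ _ ℂ) i) :
    X.det = (A.submatrix f g).det := by
  classical
  let e : Fin k ⊕ {i // i ∉ Set.range g} ≃ Fin r :=
    (Equiv.sumCongr (Equiv.ofInjective g hg) (Equiv.refl _)).trans
      (Equiv.sumCompl (fun i => i ∈ Set.range g))
  have he1 : ∀ t, e (Sum.inl t) = g t := fun t => rfl
  have he2 : ∀ c, e (Sum.inr c) = c.1 := fun c => rfl
  rw [← Matrix.det_submatrix_equiv_self e X]
  have : X.submatrix e e = Matrix.fromBlocks (A.submatrix f g)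
      (A.submatrix f fun c : {i // i ∉ Set.range g} => c.1) 0 1 := by
    ext a c
    rcases a with a | a
    · rcases c with c | c
      · simp [he1, h1]
      · simp [he1, he2, h1]
    · rcases c with c | c
      · have : (a.1 : Fin r) ≠ g c := fun h => a.2 ⟨c, h.symm⟩
        simp [he1, he2, h2 a.1 a.2, this]
      · simp [he2, h2 a.1 a.2, Matrix.one_apply, Subtype.ext_iff]
  rw [this, Matrix.det_fromBlocks_zero₂₁, Matrix.det_one, mul_one]

theorem det_ge {r : ℕ} (A : Matrix (Fin r) (Fin r) ℂ) (hA : ∀ i j, A i j = 0 ∨ A i j ∈ Dy)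
    (hdet : A.det ≠ 0) :
    ∃ τ : Equiv.Perm (Fin r), (∀ i, A i (τ i) ≠ 0) ∧ ∏ i, ‖A i (τ i)‖ ≤ ‖A.det‖ := by
  classical
  have hd : A.det = ∑ σ : Equiv.Perm (Fin r), Equiv.Perm.sign σ • ∏ i, A i (σ i) := by
    rw [← Matrix.det_transpose, Matrix.det_apply]
    rfl
  let T : Finset (Equiv.Perm (Fin r)) := univ.filter fun σ => ∀ i, A i (σ i) ≠ 0
  have hT : T.Nonempty := by
    by_contra hne
    apply hdet
    rw [hd]
    refine Finset.sum_eq_zero fun σ _ => ?_
    have : σ ∉ T := fun h => hne ⟨σ, h⟩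
    simp only [T, mem_filter, mem_univ, true_and, not_forall, not_not] at this
    obtain ⟨i, hi⟩ := this
    rw [Finset.prod_eq_zero (mem_univ i) hi, smul_zero]
  obtain ⟨τ, hτ, hmin⟩ := Finset.exists_min_image T (fun σ => ∏ i, ‖A i (σ i)‖) hT
  have hτ' : ∀ i, A i (τ i) ≠ 0 := (mem_filter.1 hτ).2
  have hprod : ∀ σ : Equiv.Perm (Fin r), (∀ i, A i (σ i) ≠ 0) → ∏ i, A i (σ i) ∈ Dy := by
    intro σ hσ
    refine Finset.prod_induction _ (fun z => z ∈ Dy) (fun _ _ => Dy.mul) Dy.one fun i _ => ?_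
    exact (hA i (σ i)).resolve_left (hσ i)
  obtain ⟨m0, hm0, _⟩ := Dy.norm (hprod τ hτ')
  have hterm : ∀ σ : Equiv.Perm (Fin r), ∃ z : ℤ,
      Equiv.Perm.sign σ • ∏ i, A i (σ i) = (z : ℂ) * 2 ^ m0 := by
    intro σ
    by_cases hσ : σ ∈ T
    · obtain ⟨m, hm, hm'⟩ := Dy.norm (hprod σ (mem_filter.1 hσ).2)
      have h1 := hmin σ hσ
      rw [← norm_prod, ← norm_prod, hm0, hm] at h1
      have h2 : m0 ≤ m := (zpow_le_zpow_iff_right₀ (by norm_num : (1 : ℝ) < 2)).1 h1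
      obtain ⟨k, hk⟩ := Int.le.dest h2
      have h3 : (2 : ℂ) ^ m = ((2 ^ k : ℤ) : ℂ) * 2 ^ m0 := by
        rw [← hk, zpow_add₀ two_ne_zero, zpow_natCast]
        push_cast
        ring
      rcases Int.units_eq_one_or (Equiv.Perm.sign σ) with h | h <;> rcases hm' with h4 | h4
      · exact ⟨2 ^ k, by rw [h, h4, h3]; simp⟩
      · exact ⟨-2 ^ k, by rw [h, h4, h3]; simp⟩
      · exact ⟨-2 ^ k, by rw [h, h4, h3]; simp⟩
      · exact ⟨2 ^ k, by rw [h, h4, h3]; simp⟩
    · refine ⟨0, ?_⟩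
      simp only [T, mem_filter, mem_univ, true_and, not_forall, not_not] at hσ
      obtain ⟨i, hi⟩ := hσ
      rw [Finset.prod_eq_zero (mem_univ i) hi, smul_zero]
      simp
  choose z hz using hterm
  have h5 : A.det = ((∑ σ, z σ : ℤ) : ℂ) * 2 ^ m0 := by
    rw [hd, Finset.sum_congr rfl fun σ _ => hz σ, ← Finset.sum_mul]
    push_cast
    rfl
  have h6 : (∑ σ, z σ : ℤ) ≠ 0 := by
    intro h
    rw [h] at h5
    exact hdet (by rw [h5]; simp)
  refine ⟨τ, hτ', ?_⟩
  rw [← norm_prod, hm0, h5, norm_mul, norm_zpow]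
  have h7 : (1 : ℝ) ≤ ‖((∑ σ, z σ : ℤ) : ℂ)‖ := by
    rw [Complex.norm_intCast]
    exact_mod_cast Int.one_le_abs h6
  have h8 : ‖(2 : ℂ)‖ = 2 := by simp
  rw [h8]
  have h9 : (0 : ℝ) < 2 ^ m0 := by positivity
  nlinarith

/-- Lemma of helper23. -/
def MatchRatio : Prop :=
  ∀ {r : ℕ} (A : Matrix (Fin r) (Fin r) ℂ),
    (∀ (k : ℕ) (f g : Fin k → Fin r), Function.Injective f → Function.Injective g →
      (A.submatrix f g).det = 0 ∨ (A.submatrix f g).det ∈ Dy) →
    ∀ s t : Equiv.Perm (Fin r), (∀ i, A i (s i) ≠ 0) → (∀ i, A i (t i) ≠ 0) →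
      ∏ i, ‖A i (s i)‖ ≤ 2 ^ r * ∏ i, ‖A i (t i)‖

theorem dyadic (hmr : MatchRatio) {α : Type*} {r : ℕ} (M : Matroid α) (φ : α → Fin r → ℂ)
    (hφ : ∀ X ⊆ M.E, M.Indep X ↔ LinearIndepOn ℂ φ X)
    (b b' : Fin r → α) (hb : Function.Injective b) (hb' : Function.Injective b')
    (hB : M.IsBase (Set.range b)) (hB' : M.IsBase (Set.range b'))
    (hD : ∀ x : Fin r → α, Set.range x ⊆ Set.range b ∪ Set.range b' →
      (Matrix.of fun i => φ (x i)).det = 0 ∨ (Matrix.of fun i => φ (x i)).det ∈ Dy) :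
    ShortSwap M (Set.range b) (Set.range b') (((2 * r).factorial * 2 ^ r) ^ 2) := by
  classical
  refine final1 M φ hφ b b' hb hb' hB hB' fun x y hxy => ?_
  set Q : Matrix (Fin r) (Fin r) ℂ := Matrix.of fun i => φ (b i) with hQ
  set N : Matrix (Fin r) (Fin r) ℂ := Matrix.of fun i => φ (b' i) with hN
  have hQ0 : Q.det ≠ 0 := fun h => absDet_ne_zero hφ hb hB (by rw [absDet, ← hQ, h, norm_zero])
  have hN0 : N.det ≠ 0 := fun h => absDet_ne_zero hφ hb' hB' (by rw [absDet, ← hN, h, norm_zero])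
  have hQu : IsUnit Q.det := isUnit_iff_ne_zero.2 hQ0
  set A : Matrix (Fin r) (Fin r) ℂ := N * Q⁻¹ with hA
  have hAQ : A * Q = N := by rw [hA, Matrix.mul_assoc, Matrix.nonsing_inv_mul Q hQu, Matrix.mul_one]
  have hdetA : A.det * Q.det = N.det := by rw [← Matrix.det_mul, hAQ]
  have hA0 : A.det ≠ 0 := fun h => hN0 (by rw [← hdetA, h, zero_mul])
  have hQD : Q.det ∈ Dy := (hD b Set.subset_union_left).resolve_left hQ0
  have hminor : ∀ (k : ℕ) (f g : Fin k → Fin r), Function.Injective f → Function.Injective g →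
      (A.submatrix f g).det = 0 ∨ (A.submatrix f g).det ∈ Dy := by
    intro k f g _ hg
    let x0 : Fin r → α := fun i => if h : ∃ t, g t = i then b' (f h.choose) else b i
    have hx0 : Set.range x0 ⊆ Set.range b ∪ Set.range b' := by
      rintro _ ⟨i, rfl⟩
      by_cases h : ∃ t, g t = i
      · exact Or.inr ⟨f h.choose, by simp [x0, h]⟩
      · exact Or.inl ⟨i, by simp [x0, h]⟩
    have h1 : ∀ t, ((Matrix.of fun i => φ (x0 i)) * Q⁻¹) (g t) = A (f t) := by
      intro t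
      have h : ∃ t', g t' = g t := ⟨t, rfl⟩
      have h2 : h.choose = t := hg h.choose_spec
      have h3 : x0 (g t) = b' (f t) := by
        simp only [x0, h, dite_true, h2]
      ext j
      simp only [hA, Matrix.mul_apply, Matrix.of_apply, h3, hN]
    have h2 : ∀ i, i ∉ Set.range g → ((Matrix.of fun i => φ (x0 i)) * Q⁻¹) i =
        (1 : Matrix (Fin r) (Fin r) ℂ) i := by
      intro i hi
      have h3 : x0 i = b i := by
        have : ¬ ∃ t, g t = i := hi
        simp [x0, this]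
      rw [← Matrix.mul_nonsing_inv Q hQu]
      ext j
      simp only [Matrix.mul_apply, Matrix.of_apply, h3, hQ]
    rw [← det_replace A f g hg _ h1 h2, Matrix.det_mul, Matrix.det_nonsing_inv,
      Ring.inverse_eq_inv']
    rcases hD x0 hx0 with h | h
    · left; rw [h, zero_mul]
    · right; exact Dy.mul h (Dy.inv hQD)
  have hent : ∀ i j, A i j = 0 ∨ A i j ∈ Dy := by
    intro i j
    have := hminor 1 (fun _ => i) (fun _ => j) (Function.injective_of_subsingleton _)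
      (Function.injective_of_subsingleton _)
    simpa using this
  obtain ⟨τ, hτ, hτle⟩ := det_ge A hent hA0
  obtain ⟨A0, hA0'⟩ := split_mat φ b b' x y hxy
  have e1 : (fun a => φ (Sum.elim b b' a)) =
      Sum.elim (fun j => Q j) (fun j => (A * Q) j) := by
    funext a
    rcases a with j | j
    · rfl
    · simp only [hAQ, Sum.elim_inr]
      rfl
  have h1 : absDet φ x * absDet φ y ≤
      ((2 * r).factorial * 2 ^ r) * (absDet φ b * absDet φ b') := by
    rw [hA0', e1, det_coord, norm_mul, norm_pow]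
    have h2 := leibniz A A0 (m := 2 ^ r * ∏ i, ‖A i (τ i)‖)
      (mul_nonneg (by positivity) (Finset.prod_nonneg fun _ _ => norm_nonneg _)) (fun σ => by
        by_cases hσ : ∀ i, A i (σ i) ≠ 0
        · exact hmr A hminor σ τ hσ hτ
        · push Not at hσ
          obtain ⟨i, hi⟩ := hσ
          rw [Finset.prod_eq_zero (mem_univ i) (by rw [hi, norm_zero])]
          exact mul_nonneg (by positivity) (Finset.prod_nonneg fun _ _ => norm_nonneg _))
    have h3 : absDet φ b = ‖Q.det‖ := rfl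
    have h4 : absDet φ b' = ‖A.det‖ * ‖Q.det‖ := by
      rw [← norm_mul, hdetA]
      rfl
    rw [h3, h4]
    have h5 : (0 : ℝ) ≤ ‖Q.det‖ ^ 2 := by positivity
    have h6 : (0 : ℝ) ≤ ((2 * r).factorial : ℝ) * 2 ^ r := by positivity
    calc ‖Q.det‖ ^ 2 * _ ≤ ‖Q.det‖ ^ 2 * ((2 * r).factorial * (2 ^ r * ∏ i, ‖A i (τ i)‖)) :=
          mul_le_mul_of_nonneg_left h2 h5
      _ = (((2 * r).factorial : ℝ) * 2 ^ r) * (‖Q.det‖ ^ 2 * ∏ i, ‖A i (τ i)‖) := by ring
      _ ≤ (((2 * r).factorial : ℝ) * 2 ^ r) * (‖Q.det‖ ^ 2 * ‖A.det‖) :=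
          mul_le_mul_of_nonneg_left (mul_le_mul_of_nonneg_left hτle h5) h6
      _ = _ := by ring
  calc (absDet φ x * absDet φ y) ^ 2 ≤
      (((2 * r).factorial * 2 ^ r) * (absDet φ b * absDet φ b')) ^ 2 :=
        pow_le_pow_left₀ (mul_nonneg (norm_nonneg _) (norm_nonneg _)) h1 2
    _ = _ := by ring

end Pool.Agent.H47PS
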