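import Pool.Agent.H20Sw.Bridge
import Pool.Agent.H23Sw.MatchLoc
import Pool.Agent.H88Gain.GainLoc
import Pool.Agent.H47PS.LocBridge

/-!
# Matroids with bounded cross ratios: the swap in a polynomial number of exchanges (helper47)
-/

set_option autoImplicit false

namespace Pool.Agent.H47PS.LB

open Finset Pool.Agent.H47PS Pool.Agent.H20Sw

variable {r : ℕ}

/-- The bound for the matrix `A` of coordinates. -/
theorem ratioLoc (c : ℝ) (hc1 : 1 ≤ c) (A : Matrix (Fin r) (Fin r) ℂ) (H : H23Sw.Loc c A)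
    (hA : A.det ≠ 0) (T : Finset (Fin r ⊕ Fin r)) :
    ‖(H68Rg.mat (vecs A) T).det‖ ≤ cst c r * ‖A.det‖ := by
  obtain ⟨τ, hτ, hτ2⟩ := H88Gain.det_lower_loc hc1 A H hA
  let v : AbsoluteValue ℂ ℝ := NormedField.toAbsoluteValue ℂ
  have hv : ∀ z, v z = ‖z‖ := fun _ => rfl
  have h2 := leib A v (c ^ r * ∏ i, ‖A i (τ i)‖) (by positivity) (fun σ hσ =>
    H23Sw.match_ratio_of_loc c hc1 A H σ τ hσ hτ) T
  rw [hv] at h2
  unfold cst
  rw [Finset.prod_range_succ]
  have hP : (0 : ℝ) ≤ r.factorial * c ^ r := by positivity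
  calc ‖(H68Rg.mat (vecs A) T).det‖ ≤ r.factorial * (c ^ r * ∏ i, ‖A i (τ i)‖) := h2
    _ = r.factorial * c ^ r * ∏ i, ‖A i (τ i)‖ := by ring
    _ ≤ r.factorial * c ^ r * ((∏ k ∈ range r, (c ^ k * (k.factorial : ℝ))) * ‖A.det‖) :=
        mul_le_mul_of_nonneg_left hτ2 hP
    _ = _ := by ring

/-- **The local-global clause.** -/
theorem final_local {α : Type*} {r : ℕ} (M : Matroid α)
    (φ : α → Fin r → ℂ) (hφ : ∀ X ⊆ M.E, M.Indep X ↔ LinearIndepOn ℂ φ X)
    (b b' : Fin r → α) (hb : Function.Injective b) (hb' : Function.Injective b')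
    (hB : M.IsBase (Set.range b)) (hB' : M.IsBase (Set.range b'))
    (c : ℝ) (hc1 : 1 ≤ c)
    (hc : ∀ x y z w : Fin r → α, Function.Injective x → Function.Injective y →
      M.IsBase (Set.range x) → M.IsBase (Set.range y) →
      Set.range x ∪ Set.range y ⊆ Set.range b ∪ Set.range b' →
      (Set.range x \ Set.range y).ncard = 2 → Splits (Set.range x) (Set.range y) z w →
      absDet φ z * absDet φ w ≤ c * (absDet φ x * absDet φ y)) :
    ShortSwap M (Set.range b) (Set.range b')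
      ((∏ k ∈ Finset.range (r + 1), (c ^ k * (k.factorial : ℝ))) ^ 2) := by
  classical
  -- the matrix of the basis `b`
  set P : Matrix (Fin r) (Fin r) ℂ := Matrix.of fun i => φ (b i) with hP
  set P' : Matrix (Fin r) (Fin r) ℂ := Matrix.of fun i => φ (b' i) with hP'
  have hPdet : P.det ≠ 0 := norm_ne_zero_iff.1 (absDet_ne_zero hφ hb hB)
  have hPdet' : P'.det ≠ 0 := norm_ne_zero_iff.1 (absDet_ne_zero hφ hb' hB')
  have hPu : IsUnit P.det := isUnit_iff_ne_zero.2 hPdet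
  let A : Matrix (Fin r) (Fin r) ℂ := P' * P⁻¹
  have hAP : A * P = P' := by
    rw [Matrix.mul_assoc, Matrix.nonsing_inv_mul P hPu, Matrix.mul_one]
  have hAdet : A.det * P.det = P'.det := by rw [← Matrix.det_mul, hAP]
  have hA0 : A.det ≠ 0 := by
    intro h
    rw [h, zero_mul] at hAdet
    exact hPdet' hAdet.symm
  -- coordinates
  have hcoord : ∀ a : Fin r ⊕ Fin r, Matrix.vecMul (vecs A a) P = φ (Sum.elim b b' a) := by
    rintro (j | j)
    · simp only [vecs, Sum.elim_inl]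
      rw [Matrix.single_one_vecMul]
      rfl
    · simp only [vecs, Sum.elim_inr]
      have : (A * P) j = P' j := by rw [hAP]
      exact this
  have H : H23Sw.Loc c A := loc hφ hb hB hB' hc1 hc A hcoord
  refine final1 M φ hφ b b' hb hb' hB hB' fun x y hxy => ?_
  obtain ⟨π, hx, hy⟩ := exists_perm_of_splits hxy
  let T : Finset (Fin r ⊕ Fin r) := univ.image fun i => π (Sum.inl i)
  have hT1 : ∀ i, π (Sum.inl i) ∈ T := fun i => mem_image_of_mem _ (mem_univ i)
  have hT2 : ∀ i, π (Sum.inr i) ∉ T := by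
    intro i hi
    obtain ⟨j, _, hj⟩ := mem_image.1 hi
    exact absurd (π.injective hj) (by simp)
  have e1 := norm_det_mat (fun a => φ (Sum.elim b b' a)) T π hT1 hT2
  have e2 : H68Rg.mat (fun a => φ (Sum.elim b b' a)) T =
      H68Rg.mat (fun a => Matrix.vecMul (vecs A a) P) T := by
    congr 1
    funext a
    exact (hcoord a).symm
  have e3 : absDet φ x * absDet φ y = ‖P.det‖ * ‖P.det‖ * ‖(H68Rg.mat (vecs A) T).det‖ := by
    rw [e2, mat_mul, norm_mul, norm_mul] at e1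
    rw [e1]
    unfold absDet
    congr 2
    · congr 1
      ext i j
      simp only [Matrix.of_apply, hx]
    · congr 1
      ext i j
      simp only [Matrix.of_apply, hy]
  have e4 : absDet φ b * absDet φ b' = ‖P.det‖ * ‖P.det‖ * ‖A.det‖ := by
    change ‖P.det‖ * ‖P'.det‖ = _
    rw [← hAdet, norm_mul]
    ring
  have e5 := ratioLoc c hc1 A H hA0 T
  rw [e3, e4]
  have e6 : ‖P.det‖ * ‖P.det‖ * ‖(H68Rg.mat (vecs A) T).det‖ ≤
      cst c r * (‖P.det‖ * ‖P.det‖ * ‖A.det‖) := by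
    calc ‖P.det‖ * ‖P.det‖ * ‖(H68Rg.mat (vecs A) T).det‖ ≤
          ‖P.det‖ * ‖P.det‖ * (cst c r * ‖A.det‖) :=
          mul_le_mul_of_nonneg_left e5 (by positivity)
      _ = _ := by ring
  change _ ≤ (cst c r) ^ 2 * _
  calc (‖P.det‖ * ‖P.det‖ * ‖(H68Rg.mat (vecs A) T).det‖) ^ 2 ≤
        (cst c r * (‖P.det‖ * ‖P.det‖ * ‖A.det‖)) ^ 2 :=
        pow_le_pow_left₀ (by positivity) e6 2
    _ = _ := by rw [mul_pow]

end Pool.Agent.H47PS.LB
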