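import Pool.Agent.H68Rg.OfRG
import Pool.Agent.H11SW.Matroid
import Pool.Agent.H2Swap.Len

/-!
# Matroid half of the swap theorem with a polynomial length (helper47)
-/

set_option autoImplicit false

namespace Pool.Agent.H47PS

open Finset Pool.Agent.H68Rg

/-- The statement for functions (`short_walk` of helper2). -/
def ShortPath (E : Type) [Fintype E] [DecidableEq E] (n : ℕ) (L : ℝ) : Prop :=
  ∀ F : Finset E → ℂ, (∀ A, F A ≠ 0 → A.card = n) →
    (∀ C : Finset E, ∑ a ∈ Cᶜ, F (insert a C) = 0) →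
    ∀ S : Finset E, F S ≠ 0 → (∀ A, ‖F A‖ ^ 2 ≤ L * ‖F S‖ ^ 2) →
    ∃ m : ℕ, (n = 0 → m = 0) ∧ (∀ q : ℕ, (univ.filter fun A => F A ≠ 0).card ≤ q →
        (1 + 2 / (n : ℝ)) ^ m ≤ (n + 1) * q * L) ∧
      ∃ c : ℕ → Finset E, c 0 = S ∧ c m = Sᶜ ∧
      ∀ i < m, F (c i) ≠ 0 ∧ F (c (i + 1)) ≠ 0 ∧
        ∃ a ∈ c i, ∃ b ∉ c i, c (i + 1) = insert b ((c i).erase a)

variable {r : ℕ}

/-- An enumeration of `A` and one of its complement give a permutation. -/
theorem exists_perm (A : Finset (Fin r ⊕ Fin r)) (hA : A.card = r) :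
    ∃ σ : Equiv.Perm (Fin r ⊕ Fin r),
      (∀ i, σ (Sum.inl i) ∈ A) ∧ ∀ i, σ (Sum.inr i) ∉ A := by
  classical
  have hA' : Aᶜ.card = r := by
    have := Finset.card_add_card_compl A
    rw [Fintype.card_sum, Fintype.card_fin] at this
    omega
  let x : Fin r ≃ A := (Finset.equivFinOfCardEq hA).symm
  let y : Fin r ≃ {a // ¬ a ∈ A} :=
    (Fintype.equivFinOfCardEq (α := {a // ¬ a ∈ A}) (n := r) (by
      rw [Fintype.card_subtype_compl, Fintype.card_coe, hA, Fintype.card_sum, Fintype.card_fin]
      omega)).symm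
  let σ : Fin r ⊕ Fin r ≃ Fin r ⊕ Fin r :=
    (Equiv.sumCongr x y).trans (Equiv.sumCompl (fun a => a ∈ A))
  refine ⟨σ, fun i => ?_, fun i => ?_⟩
  · change ((x i : A) : Fin r ⊕ Fin r) ∈ A
    exact (x i).2
  · change ¬ ((y i : {a // ¬ a ∈ A}) : Fin r ⊕ Fin r) ∈ A
    exact (y i).2

theorem norm_det_mat (E : Fin r ⊕ Fin r → Fin r → ℂ) (A : Finset (Fin r ⊕ Fin r))
    (σ : Equiv.Perm (Fin r ⊕ Fin r)) (h1 : ∀ i, σ (Sum.inl i) ∈ A) (h2 : ∀ i, σ (Sum.inr i) ∉ A) :
    ‖(mat E A).det‖ = ‖(Matrix.of fun i => E (σ (Sum.inl i))).det‖ *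
      ‖(Matrix.of fun i => E (σ (Sum.inr i))).det‖ := by
  have e : (mat E A).submatrix id σ = Matrix.fromBlocks
      (Matrix.of fun i => E (σ (Sum.inl i))).transpose 0 0
      (Matrix.of fun i => E (σ (Sum.inr i))).transpose := by
    ext x y
    rcases x with i | i <;> rcases y with j | j <;> simp [mat, h1, h2]
  have e2 := Matrix.det_permute' σ (mat E A)
  rw [e, Matrix.det_fromBlocks_zero₂₁, Matrix.det_transpose, Matrix.det_transpose] at e2
  rw [← norm_mul, e2, norm_mul]
  have : ‖((Equiv.Perm.sign σ : ℤ) : ℂ)‖ = 1 := by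
    rcases Int.units_eq_one_or (Equiv.Perm.sign σ) with h | h <;> simp [h]
  rw [this, one_mul]

theorem shortPath (E : Type) [Fintype E] [DecidableEq E] (n : ℕ) (L : ℝ)
    (hE : Fintype.card E = 2 * n) : ShortPath E n L := by
  intro F hF hrel S hS hs
  have hSpos : 0 < ‖F S‖ ^ 2 := by
    have := norm_pos_iff.2 hS
    positivity
  have hL : 1 ≤ L := by
    by_contra hc
    push Not at hc
    have := hs S
    nlinarith
  have hq1 : ∀ q : ℕ, (univ.filter fun A => F A ≠ 0).card ≤ q → 1 ≤ q := fun q hq =>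
    (card_pos.2 ⟨S, mem_filter.2 ⟨mem_univ _, hS⟩⟩).trans_le hq
  rcases Nat.eq_zero_or_pos n with rfl | hn
  · have : IsEmpty E := Fintype.card_eq_zero_iff.1 (by simpa using hE)
    refine ⟨0, fun _ => rfl, fun q hq => ?_, fun _ => S, rfl, Subsingleton.elim _ _,
      fun i hi => absurd hi (by simp)⟩
    have h1 : (1 : ℝ) ≤ q := by exact_mod_cast hq1 q hq
    simp only [pow_zero, Nat.cast_zero, zero_add, one_mul]
    nlinarith
  · obtain ⟨N, hN, c, h0, h1, h2⟩ := H2Swap.short_walk hn hE F hF hrel S hS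
    refine ⟨N, fun h => absurd h hn.ne', fun q hq => ?_, c, h0, h1, fun i hi => ?_⟩
    · have h3 : ∑ A, ‖F A‖ ^ 2 ≤ (q : ℝ) * (L * ‖F S‖ ^ 2) := by
        have h4 : ∑ A, ‖F A‖ ^ 2 = ∑ A ∈ univ.filter (fun A => F A ≠ 0), ‖F A‖ ^ 2 := by
          symm
          refine Finset.sum_filter_of_ne fun A _ h hc => h ?_
          rw [hc]; simp
        rw [h4]
        calc ∑ A ∈ univ.filter (fun A => F A ≠ 0), ‖F A‖ ^ 2 ≤
            ∑ A ∈ univ.filter (fun A => F A ≠ 0), L * ‖F S‖ ^ 2 :=
              Finset.sum_le_sum fun A _ => hs A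
          _ = ((univ.filter fun A => F A ≠ 0).card : ℝ) * (L * ‖F S‖ ^ 2) := by
              rw [Finset.sum_const, nsmul_eq_mul]
          _ ≤ _ := mul_le_mul_of_nonneg_right (by exact_mod_cast hq) (by positivity)
      refine le_of_mul_le_mul_right ?_ hSpos
      calc (1 + 2 / (n : ℝ)) ^ N * ‖F S‖ ^ 2 ≤ (n + 1) * ∑ A, ‖F A‖ ^ 2 := hN
        _ ≤ (n + 1) * ((q : ℝ) * (L * ‖F S‖ ^ 2)) :=
            mul_le_mul_of_nonneg_left h3 (by positivity)
        _ = _ := by ring
    · obtain ⟨h3, h4, a, ha, b, hb, hab⟩ := h2 i hi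
      exact ⟨h3, h4, a, ha, b, hb, hab⟩

/-- The pairs of bases with the same union and intersection as `B` and `B'`. -/
def Pairs {α : Type*} (M : Matroid α) (B B' : Set α) : Set (Set α × Set α) :=
  {p | M.IsBase p.1 ∧ M.IsBase p.2 ∧ p.1 ∪ p.2 = B ∪ B' ∧ p.1 ∩ p.2 = B ∩ B'}

/-- **Matroid form.** -/
theorem matroid_half {α : Type*} {r : ℕ} (M : Matroid α)
    (φ : α → Fin r → ℂ) (hφ : ∀ X ⊆ M.E, M.Indep X ↔ LinearIndepOn ℂ φ X)
    (b b' : Fin r → α) (hb : Function.Injective b) (hb' : Function.Injective b')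
    (hB : M.IsBase (Set.range b)) (hB' : M.IsBase (Set.range b')) {L : ℝ}
    (hs : ∀ x y : Fin r → α, Function.Injective x → Function.Injective y →
      Set.range x ∪ Set.range y = Set.range b ∪ Set.range b' →
      Set.range x ∩ Set.range y = Set.range b ∩ Set.range b' →
      (‖(Matrix.of (φ ∘ x)).det‖ * ‖(Matrix.of (φ ∘ y)).det‖) ^ 2 ≤
        L * (‖(Matrix.of (φ ∘ b)).det‖ * ‖(Matrix.of (φ ∘ b')).det‖) ^ 2) :
    ∃ N : ℕ, ((Set.range b \ Set.range b').ncard = 0 → N = 0) ∧
      (1 + 2 / ((Set.range b \ Set.range b').ncard : ℝ)) ^ N ≤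
        ((Set.range b \ Set.range b').ncard + 1) *
          (Pairs M (Set.range b) (Set.range b')).ncard * L ∧
      (1 + 2 / ((Set.range b \ Set.range b').ncard : ℝ)) ^ N ≤
        ((Set.range b \ Set.range b').ncard + 1) *
          ((2 * (Set.range b \ Set.range b').ncard).choose
            (Set.range b \ Set.range b').ncard : ℕ) * L ∧
      ∃ P : ℕ → Set α × Set α,
      P 0 = (Set.range b, Set.range b') ∧ P N = (Set.range b', Set.range b) ∧
      ∀ i < N, H11SW.SymExchange M (P i) (P (i + 1)) := by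
  classical
  set g : Fin r ⊕ Fin r → α := Sum.elim b b' with hg
  have hgE : ∀ a, g a ∈ M.E := by
    rintro (i | i)
    · exact hB.subset_ground ⟨i, rfl⟩
    · exact hB'.subset_ground ⟨i, rfl⟩
  have l1 : LinearIndependent ℂ (φ ∘ b) :=
    (linearIndepOn_range_iff hb φ).1 ((hφ _ hB.subset_ground).1 hB.indep)
  have l2 : LinearIndependent ℂ (φ ∘ b') :=
    (linearIndepOn_range_iff hb' φ).1 ((hφ _ hB'.subset_ground).1 hB'.indep)
  let E : Fin r ⊕ Fin r → Fin r → ℂ := φ ∘ g
  have hE : ∀ A : Finset (Fin r ⊕ Fin r), A.card = r →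
      LinearIndepOn ℂ E (A : Set (Fin r ⊕ Fin r)) →
        M.IsBase (g '' (A : Set (Fin r ⊕ Fin r))) ∧ Set.InjOn g (A : Set (Fin r ⊕ Fin r)) := by
    intro A hA h3
    have hinj : Set.InjOn (φ ∘ g) (A : Set (Fin r ⊕ Fin r)) := h3.injOn
    have hinj' : Set.InjOn g (A : Set (Fin r ⊕ Fin r)) := hinj.of_comp
    have h4 : M.Indep (g '' (A : Set (Fin r ⊕ Fin r))) := by
      rw [hφ _ (by rintro _ ⟨a, _, rfl⟩; exact hgE a)]
      exact h3.image_of_comp g φ
    obtain ⟨D, hD, hAD⟩ := h4.exists_isBase_superset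
    have h5 : D.ncard = r := by
      rw [hD.ncard_eq_ncard_of_isBase hB, ← Set.image_univ, hb.injOn.ncard_image, Set.ncard_univ,
        Nat.card_eq_fintype_card, Fintype.card_fin]
    have h6 : (g '' (A : Set (Fin r ⊕ Fin r))).ncard = r := by
      rw [hinj'.ncard_image, Set.ncard_coe_finset, hA]
    have h7 : D.Finite := by
      rw [← Set.encard_lt_top_iff, hD.encard_eq_encard_of_isBase hB, Set.encard_lt_top_iff]
      exact Set.finite_range b
    have h8 := Set.eq_of_subset_of_ncard_le hAD (by rw [h5, h6]) h7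
    rw [h8]
    exact ⟨hD, hinj'⟩
  let F : Finset (Fin r ⊕ Fin r) → ℂ := fun A => (mat E A).det
  have hbase : ∀ A, F A ≠ 0 → (M.IsBase (g '' (A : Set (Fin r ⊕ Fin r))) ∧
      Set.InjOn g (A : Set (Fin r ⊕ Fin r))) ∧
      (M.IsBase (g '' ((Aᶜ : Finset (Fin r ⊕ Fin r)) : Set (Fin r ⊕ Fin r))) ∧
      Set.InjOn g ((Aᶜ : Finset (Fin r ⊕ Fin r)) : Set (Fin r ⊕ Fin r))) := by
    intro A hA
    obtain ⟨h3, h4⟩ := indep_of_det hA
    obtain ⟨h5, h6⟩ := card_of_det hA
    exact ⟨hE A h5 h3, hE Aᶜ h6 h4⟩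
  have hS0 : F (univ.map ⟨Sum.inl, Sum.inl_injective⟩) ≠ 0 := det_first l1 l2
  have hSn : ‖F (univ.map ⟨Sum.inl, Sum.inl_injective⟩)‖ =
      ‖(Matrix.of (φ ∘ b)).det‖ * ‖(Matrix.of (φ ∘ b')).det‖ := by
    have := norm_det_mat E (univ.map ⟨Sum.inl, Sum.inl_injective⟩) (Equiv.refl _)
      (fun i => by simp) (fun i => by simp)
    exact this
  have hun : ∀ A : Finset (Fin r ⊕ Fin r), g '' (A : Set (Fin r ⊕ Fin r)) ∪
      g '' ((Aᶜ : Finset (Fin r ⊕ Fin r)) : Set (Fin r ⊕ Fin r)) =
      Set.range b ∪ Set.range b' := by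
    intro A
    rw [← Set.image_union, coe_compl, Set.union_compl_self, Set.image_univ, hg,
      Set.Sum.elim_range]
  have hin : ∀ A : Finset (Fin r ⊕ Fin r), F A ≠ 0 → g '' (A : Set (Fin r ⊕ Fin r)) ∩
      g '' ((Aᶜ : Finset (Fin r ⊕ Fin r)) : Set (Fin r ⊕ Fin r)) =
      Set.range b ∩ Set.range b' := by
    intro A h0
    obtain ⟨⟨_, hi1⟩, _, hi2⟩ := hbase A h0
    ext z
    constructor
    · rintro ⟨⟨a, ha, rfl⟩, ⟨c, hc, hca⟩⟩
      have hne : a ≠ c := by
        rintro rfl
        have : a ∉ A := by simpa using hc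
        exact this ha
      rcases a with i | i <;> rcases c with j | j
      · exact absurd (congrArg Sum.inl (hb hca)).symm hne
      · exact ⟨⟨i, rfl⟩, ⟨j, hca⟩⟩
      · exact ⟨⟨j, hca⟩, ⟨i, rfl⟩⟩
      · exact absurd (congrArg Sum.inr (hb' hca)).symm hne
    · rintro ⟨⟨i, hi⟩, ⟨j, hj⟩⟩
      have hgij : g (Sum.inl i) = g (Sum.inr j) := hi.trans hj.symm
      by_cases h3 : Sum.inl i ∈ A
      · by_cases h4 : Sum.inr j ∈ A
        · exact absurd (hi1 h3 h4 hgij) (by simp)
        · exact ⟨⟨Sum.inl i, h3, hi⟩, ⟨Sum.inr j, by simpa using h4, hj⟩⟩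
      · by_cases h4 : Sum.inr j ∈ A
        · exact ⟨⟨Sum.inr j, h4, hj⟩, ⟨Sum.inl i, by simpa using h3, hi⟩⟩
        · exact absurd (hi2 (by simpa using h3) (by simpa using h4) hgij) (by simp)
  -- the bound
  have hbound : ∀ A : Finset (Fin r ⊕ Fin r),
      ‖F A‖ ^ 2 ≤ L * ‖F (univ.map ⟨Sum.inl, Sum.inl_injective⟩)‖ ^ 2 := by
    have hL : 0 ≤ L := by
      have h1 := hs b b' hb hb' rfl rfl
      rw [← hSn] at h1
      have h2 : 0 < ‖F (univ.map ⟨Sum.inl, Sum.inl_injective⟩)‖ ^ 2 := by
        have := norm_pos_iff.2 hS0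
        positivity
      by_contra hc
      push Not at hc
      nlinarith
    intro A
    by_cases h0 : F A = 0
    · rw [h0, norm_zero, zero_pow two_ne_zero]
      positivity
    obtain ⟨⟨_, hi1⟩, _, hi2⟩ := hbase A h0
    obtain ⟨σ, hσ1, hσ2⟩ := exists_perm A (card_of_det h0).1
    have hr1 : ∀ a, a ∈ A → ∃ i, σ (Sum.inl i) = a := by
      intro a ha
      obtain ⟨z, rfl⟩ := σ.surjective a
      rcases z with i | i
      · exact ⟨i, rfl⟩
      · exact absurd ha (hσ2 i)
    have hr2 : ∀ a, a ∉ A → ∃ i, σ (Sum.inr i) = a := by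
      intro a ha
      obtain ⟨z, rfl⟩ := σ.surjective a
      rcases z with i | i
      · exact absurd (hσ1 i) ha
      · exact ⟨i, rfl⟩
    have hx : Set.range (fun i => g (σ (Sum.inl i))) = g '' (A : Set (Fin r ⊕ Fin r)) := by
      ext z
      constructor
      · rintro ⟨i, rfl⟩
        exact ⟨_, hσ1 i, rfl⟩
      · rintro ⟨a, ha, rfl⟩
        obtain ⟨i, rfl⟩ := hr1 a ha
        exact ⟨i, rfl⟩
    have hy : Set.range (fun i => g (σ (Sum.inr i))) =
        g '' ((Aᶜ : Finset (Fin r ⊕ Fin r)) : Set (Fin r ⊕ Fin r)) := by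
      ext z
      constructor
      · rintro ⟨i, rfl⟩
        exact ⟨_, by simpa using hσ2 i, rfl⟩
      · rintro ⟨a, ha, rfl⟩
        obtain ⟨i, rfl⟩ := hr2 a (by simpa using ha)
        exact ⟨i, rfl⟩
    have hu : g '' (A : Set (Fin r ⊕ Fin r)) ∪
        g '' ((Aᶜ : Finset (Fin r ⊕ Fin r)) : Set (Fin r ⊕ Fin r)) =
        Set.range b ∪ Set.range b' := by
      rw [← Set.image_union, coe_compl, Set.union_compl_self, Set.image_univ, hg,
        Set.Sum.elim_range]
    have hn : g '' (A : Set (Fin r ⊕ Fin r)) ∩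
        g '' ((Aᶜ : Finset (Fin r ⊕ Fin r)) : Set (Fin r ⊕ Fin r)) =
        Set.range b ∩ Set.range b' := by
      ext z
      constructor
      · rintro ⟨⟨a, ha, rfl⟩, ⟨c, hc, hca⟩⟩
        have hne : a ≠ c := by
          rintro rfl
          have : a ∉ A := by simpa using hc
          exact this ha
        rcases a with i | i <;> rcases c with j | j
        · exact absurd (congrArg Sum.inl (hb hca)).symm hne
        · exact ⟨⟨i, rfl⟩, ⟨j, hca⟩⟩
        · exact ⟨⟨j, hca⟩, ⟨i, rfl⟩⟩
        · exact absurd (congrArg Sum.inr (hb' hca)).symm hne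
      · rintro ⟨⟨i, hi⟩, ⟨j, hj⟩⟩
        have hgij : g (Sum.inl i) = g (Sum.inr j) := hi.trans hj.symm
        by_cases h3 : Sum.inl i ∈ A
        · by_cases h4 : Sum.inr j ∈ A
          · exact absurd (hi1 h3 h4 hgij) (by simp)
          · exact ⟨⟨Sum.inl i, h3, hi⟩, ⟨Sum.inr j, by simpa using h4, hj⟩⟩
        · by_cases h4 : Sum.inr j ∈ A
          · exact ⟨⟨Sum.inr j, h4, hj⟩, ⟨Sum.inl i, by simpa using h3, hi⟩⟩
          · exact absurd (hi2 (by simpa using h3) (by simpa using h4) hgij) (by simp)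
    have key := hs (fun i => g (σ (Sum.inl i))) (fun i => g (σ (Sum.inr i)))
      (fun i j hij => by
        have := hi1 (hσ1 i) (hσ1 j) hij
        simpa using σ.injective this)
      (fun i j hij => by
        have := hi2 (by simpa using hσ2 i) (by simpa using hσ2 j) hij
        simpa using σ.injective this)
      (by rw [hx, hy, hu]) (by rw [hx, hy, hn])
    rw [hSn]
    refine le_trans (le_of_eq ?_) key
    change ‖(mat E A).det‖ ^ 2 = _
    rw [norm_det_mat E A σ hσ1 hσ2]
    rfl
  -- one step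
  let P : Finset (Fin r ⊕ Fin r) → Set α × Set α := fun A =>
    (g '' (A : Set (Fin r ⊕ Fin r)),
      g '' ((Aᶜ : Finset (Fin r ⊕ Fin r)) : Set (Fin r ⊕ Fin r)))
  have hstepP : ∀ (A : Finset (Fin r ⊕ Fin r)) (a d : Fin r ⊕ Fin r), F A ≠ 0 → a ∈ A → d ∉ A →
      F (insert d (A.erase a)) ≠ 0 → H11SW.SymExchange M (P A) (P (insert d (A.erase a))) := by
    intro A a d ihF ha hd hF'
    refine ⟨⟨g a, ⟨a, ha, rfl⟩, g d, ⟨d, by simpa using hd, rfl⟩, ?_, ?_⟩,
      (hbase _ hF').1.1, (hbase _ hF').2.1⟩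
    · change g '' _ = insert (g d) (g '' _ \ {g a})
      rw [coe_insert, Set.image_insert_eq, coe_erase]
      have h3 := (hbase _ ihF).1.2
      rw [Set.InjOn.image_sdiff_subset h3 (by simpa using ha), Set.image_singleton]
    · have e : ((insert d (A.erase a))ᶜ : Finset (Fin r ⊕ Fin r)) =
          insert a (Aᶜ.erase d) := by
        ext x
        simp only [mem_compl, mem_insert, mem_erase, not_or, not_and_or, not_not]
        constructor
        · rintro ⟨h3, h4 | h4⟩
          · exact Or.inl h4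
          · exact Or.inr ⟨h3, h4⟩
        · rintro (h4 | ⟨h3, h4⟩)
          · subst h4
            exact ⟨fun h => hd (h ▸ ha), Or.inl rfl⟩
          · exact ⟨h3, Or.inr h4⟩
      change g '' _ = insert (g a) (g '' ((Aᶜ : Finset (Fin r ⊕ Fin r)) :
        Set (Fin r ⊕ Fin r)) \ {g d})
      rw [e, coe_insert (a := a), Set.image_insert_eq, coe_erase]
      congr 1
      have h3 := (hbase _ ihF).2.2
      rw [Set.InjOn.image_sdiff_subset h3 (by simpa using hd), Set.image_singleton]
  -- the elements outside the common part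
  set C : Set α := Set.range b ∩ Set.range b' with hC
  let T : Type := {a : Fin r ⊕ Fin r // g a ∉ C}
  let K : Finset (Fin r ⊕ Fin r) := univ.filter fun a => a.isLeft ∧ g a ∈ C
  let K' : Finset (Fin r ⊕ Fin r) := univ.filter fun a => a.isRight ∧ g a ∈ C
  let up : Finset T → Finset (Fin r ⊕ Fin r) := fun A => A.map (Function.Embedding.subtype _) ∪ K
  have hKC : K.card = C.ncard := by
    have h3 : g '' (K : Set (Fin r ⊕ Fin r)) = C := by
      ext x
      constructor
      · rintro ⟨a, ha, rfl⟩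
        exact (mem_filter.1 (mem_coe.1 ha)).2.2
      · intro hx
        obtain ⟨i, rfl⟩ := hx.1
        exact ⟨Sum.inl i, by simpa [K, hg] using hx, rfl⟩
    have h4 : Set.InjOn g (K : Set (Fin r ⊕ Fin r)) := by
      intro a ha c hc hac
      have ha' := (mem_filter.1 (mem_coe.1 ha)).2.1
      have hc' := (mem_filter.1 (mem_coe.1 hc)).2.1
      rcases a with i | i
      · rcases c with j | j
        · exact congrArg _ (hb hac)
        · simp at hc'
      · simp at ha'
    rw [← h3, h4.ncard_image, Set.ncard_coe_finset]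
  have hK'C : K'.card = C.ncard := by
    have h3 : g '' (K' : Set (Fin r ⊕ Fin r)) = C := by
      ext x
      constructor
      · rintro ⟨a, ha, rfl⟩
        exact (mem_filter.1 (mem_coe.1 ha)).2.2
      · intro hx
        obtain ⟨i, rfl⟩ := hx.2
        exact ⟨Sum.inr i, by simpa [K', hg] using hx, rfl⟩
    have h4 : Set.InjOn g (K' : Set (Fin r ⊕ Fin r)) := by
      intro a ha c hc hac
      have ha' := (mem_filter.1 (mem_coe.1 ha)).2.1
      have hc' := (mem_filter.1 (mem_coe.1 hc)).2.1
      rcases a with i | i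
      · simp at ha'
      · rcases c with j | j
        · simp at hc'
        · exact congrArg _ (hb' hac)
    rw [← h3, h4.ncard_image, Set.ncard_coe_finset]
  set n := (Set.range b \ Set.range b').ncard with hn
  have hnr : n + C.ncard = r := by
    have h3 := Set.ncard_inter_add_ncard_sdiff_eq_ncard (Set.range b) (Set.range b')
      (Set.finite_range b)
    have h4 : (Set.range b).ncard = r := by
      rw [← Set.image_univ, hb.injOn.ncard_image, Set.ncard_univ,
        Nat.card_eq_fintype_card, Fintype.card_fin]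
    rw [← hC] at h3
    omega
  have hKK' : Disjoint K K' := by
    rw [Finset.disjoint_left]
    intro a ha ha'
    have h3 := (mem_filter.1 ha).2.1
    have h4 := (mem_filter.1 ha').2.1
    rcases a with i | i
    · simp at h4
    · simp at h3
  have hcardT : Fintype.card T = 2 * n := by
    have h3 : Fintype.card T = (univ.filter fun a => g a ∉ C).card := Fintype.card_subtype _
    have h4 : (univ.filter fun a : Fin r ⊕ Fin r => g a ∈ C) = K ∪ K' := by
      ext a
      rcases a with i | i <;> simp [K, K']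
    have h5 := Finset.card_filter_add_card_filter_not (s := (univ : Finset (Fin r ⊕ Fin r)))
      (fun a => g a ∈ C)
    rw [h4, card_union_of_disjoint hKK', hKC, hK'C, card_univ, Fintype.card_sum,
      Fintype.card_fin] at h5
    rw [h3]
    omega
  have hdisj : ∀ A : Finset T, Disjoint (A.map (Function.Embedding.subtype _)) K := by
    intro A
    rw [Finset.disjoint_left]
    intro a ha hK
    obtain ⟨c, _, rfl⟩ := mem_map.1 ha
    exact c.2 (mem_filter.1 hK).2.2
  have hmem : ∀ (A : Finset T) (a : T), (a : Fin r ⊕ Fin r) ∈ up A ↔ a ∈ A := by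
    intro A a
    simp only [up, mem_union, mem_map, Function.Embedding.coe_subtype]
    constructor
    · rintro (⟨c, hc, hca⟩ | hK)
      · exact Subtype.ext hca ▸ hc
      · exact absurd (mem_filter.1 hK).2.2 a.2
    · intro h
      exact Or.inl ⟨a, h, rfl⟩
  have hupins : ∀ (A : Finset T) (a : T), up (insert a A) = insert (a : Fin r ⊕ Fin r) (up A) := by
    intro A a
    simp [up, map_insert, insert_union]
  have huper : ∀ (A : Finset T) (a : T), up (A.erase a) = (up A).erase (a : Fin r ⊕ Fin r) := by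
    intro A a
    ext x
    by_cases hx : g x ∈ C
    · have h3 : x ≠ a := fun h => a.2 (h ▸ hx)
      have h4 : ∀ B : Finset T, x ∈ up B ↔ x ∈ K := by
        intro B
        simp only [up, mem_union, mem_map, Function.Embedding.coe_subtype]
        constructor
        · rintro (⟨c, _, rfl⟩ | hK)
          · exact absurd hx c.2
          · exact hK
        · exact Or.inr
      rw [h4, mem_erase, h4]
      exact ⟨fun h => ⟨h3, h⟩, fun h => h.2⟩
    · have := hmem (A.erase a) ⟨x, hx⟩
      rw [mem_erase]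
      change x ∈ up (A.erase a) ↔ _ at this
      rw [this, mem_erase, ← hmem A ⟨x, hx⟩]
      exact and_congr_left fun _ => not_congr Subtype.ext_iff
  let F' : Finset T → ℂ := fun A => F (up A)
  have hrel' : ∀ D : Finset T, ∑ a ∈ Dᶜ, F' (insert a D) = 0 := by
    intro D
    have h3 : (up D)ᶜ = (Dᶜ).map (Function.Embedding.subtype _) ∪ K' := by
      ext x
      by_cases hx : g x ∈ C
      · have h4 : x ∈ up D ↔ x ∈ K := by
          simp only [up, mem_union, mem_map, Function.Embedding.coe_subtype]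
          constructor
          · rintro (⟨c, _, rfl⟩ | hK)
            · exact absurd hx c.2
            · exact hK
          · exact Or.inr
        have h5 : x ∉ (Dᶜ).map (Function.Embedding.subtype _) := by
          intro h
          obtain ⟨c, _, rfl⟩ := mem_map.1 h
          exact c.2 hx
        rw [mem_compl, h4, mem_union]
        rcases x with i | i
        · simp [K, K', hx, h5]
        · simp [K, K', hx]
      · have h4 := hmem D ⟨x, hx⟩
        have h5 : x ∉ K' := fun h => hx (mem_filter.1 h).2.2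
        change x ∈ up D ↔ _ at h4
        rw [mem_compl, h4, mem_union]
        constructor
        · intro h
          exact Or.inl (mem_map.2 ⟨⟨x, hx⟩, mem_compl.2 h, rfl⟩)
        · rintro (h | h)
          · obtain ⟨c, hc, hcx⟩ := mem_map.1 h
            have : c = ⟨x, hx⟩ := Subtype.ext hcx
            rw [this] at hc
            exact mem_compl.1 hc
          · exact absurd h h5
    have h6 : Disjoint ((Dᶜ).map (Function.Embedding.subtype _)) K' := by
      rw [Finset.disjoint_left]
      intro a ha hK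
      obtain ⟨c, _, rfl⟩ := mem_map.1 ha
      exact c.2 (mem_filter.1 hK).2.2
    have h7 := rel E (up D)
    rw [h3, sum_union h6, sum_map] at h7
    have h8 : ∑ a ∈ K', (mat E (insert a (up D))).det = 0 := by
      refine sum_eq_zero fun a ha => ?_
      by_contra h0
      have h9 := (hbase _ h0).1.2
      have h10 := (mem_filter.1 ha).2
      obtain ⟨i, hi⟩ := h10.2.1
      have h11 : Sum.inl i ∈ K := by
        refine mem_filter.2 ⟨mem_univ _, rfl, ?_⟩
        change b i ∈ C
        rw [hi]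
        exact h10.2
      have h12 := h9 (mem_coe.2 (mem_insert_of_mem (mem_union_right _ h11)))
        (mem_coe.2 (mem_insert_self a (up D))) hi
      rw [← h12] at h10
      simp at h10
    rw [h8, add_zero] at h7
    rw [← h7]
    refine sum_congr rfl fun a _ => ?_
    change F (up (insert a D)) = _
    rw [hupins]
    rfl
  let S : Finset T := univ.filter fun a => (a : Fin r ⊕ Fin r).isLeft
  have hupS : up S = univ.map ⟨Sum.inl, Sum.inl_injective⟩ := by
    ext x
    by_cases hx : g x ∈ C
    · have h4 : x ∈ up S ↔ x ∈ K := by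
        simp only [up, mem_union, mem_map, Function.Embedding.coe_subtype]
        constructor
        · rintro (⟨c, _, rfl⟩ | hK)
          · exact absurd hx c.2
          · exact hK
        · exact Or.inr
      rw [h4]
      rcases x with i | i
      · simp [K, hx]
      · simp [K]
    · have h4 := hmem S ⟨x, hx⟩
      change x ∈ up S ↔ _ at h4
      rw [h4]
      rcases x with i | i <;> simp [S]
  have hcardF : ∀ A : Finset T, F' A ≠ 0 → A.card = n := by
    intro A hA
    have h3 := (card_of_det (E := E) (A := up A) hA).1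
    have h4 : (up A).card = A.card + K.card := by
      change (A.map _ ∪ K).card = _
      rw [card_union_of_disjoint (hdisj A), card_map]
    rw [h4, hKC] at h3
    omega
  obtain ⟨N, hN0, hN, c, hc0, hcN, hstep⟩ := shortPath T n L hcardT F' hcardF
    hrel' S (by change F (up S) ≠ 0; rw [hupS]; exact hS0)
    (fun A => by
      change ‖F (up A)‖ ^ 2 ≤ L * ‖F (up S)‖ ^ 2
      rw [hupS]
      exact hbound _)
  have hN1 : (univ.filter fun A : Finset T => F' A ≠ 0).card ≤
      (Pairs M (Set.range b) (Set.range b')).ncard := by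
    have hfin : (Pairs M (Set.range b) (Set.range b')).Finite := by
      have h1 : (Set.range b ∪ Set.range b').Finite :=
        (Set.finite_range b).union (Set.finite_range b')
      refine (h1.finite_subsets.prod h1.finite_subsets).subset ?_
      rintro ⟨X, Y⟩ ⟨_, _, h3, _⟩
      refine ⟨?_, ?_⟩
      · change X ⊆ _
        rw [← h3]; exact Set.subset_union_left
      · change Y ⊆ _
        rw [← h3]; exact Set.subset_union_right
    rw [← Set.ncard_coe_finset]
    refine Set.ncard_le_ncard_of_injOn (fun A => P (up A)) ?_ ?_ hfin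
    · intro A hA
      have h0 : F (up A) ≠ 0 := (mem_filter.1 (mem_coe.1 hA)).2
      refine ⟨(hbase _ h0).1.1, (hbase _ h0).2.1, hun (up A), hin (up A) h0⟩
    · intro A _ B _ hAB
      ext a
      rw [← hmem A a, ← hmem B a]
      have h3 : g '' (up A : Set (Fin r ⊕ Fin r)) = g '' (up B : Set (Fin r ⊕ Fin r)) :=
        congrArg Prod.fst hAB
      have h4 : ∀ D : Finset T, (a : Fin r ⊕ Fin r) ∈ up D ↔
          g a ∈ g '' (up D : Set (Fin r ⊕ Fin r)) := by
        intro D
        constructor
        · exact fun h => ⟨_, h, rfl⟩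
        · rintro ⟨d, hd, hda⟩
          have : d = a := by
            by_contra hne
            apply a.2
            rcases d with i | i <;> rcases h5 : (a : Fin r ⊕ Fin r) with j | j <;>
              rw [h5] at hda hne
            · exact absurd (congrArg Sum.inl (hb hda)) hne
            · exact ⟨⟨i, hda⟩, ⟨j, rfl⟩⟩
            · exact ⟨⟨j, rfl⟩, ⟨i, hda⟩⟩
            · exact absurd (congrArg Sum.inr (hb' hda)) hne
          exact this ▸ hd
      rw [h4 A, h4 B, h3]
  have hN2 : (univ.filter fun A : Finset T => F' A ≠ 0).card ≤ (2 * n).choose n := by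
    rw [← hcardT, ← Finset.card_univ, ← Finset.card_powersetCard]
    refine card_le_card fun A hA => mem_powersetCard.2 ⟨subset_univ _, ?_⟩
    exact hcardF A (mem_filter.1 hA).2
  refine ⟨N, hN0, hN _ hN1, hN _ hN2, fun i => P (up (c i)), ?_, ?_, ?_⟩
  · change P (up (c 0)) = _
    rw [hc0, hupS]
    refine Prod.ext ?_ ?_
    · ext x; simp [P, hg]
    · ext x; simp [P, hg]
  · change P (up (c N)) = _
    rw [hcN]
    have hm : ∀ x, x ∈ up Sᶜ ↔ (x.isRight ∧ g x ∉ C) ∨ x ∈ K := by
      intro x
      by_cases hx : g x ∈ C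
      · simp only [up, mem_union, mem_map, Function.Embedding.coe_subtype, hx,
          not_true_eq_false, and_false, false_or]
        constructor
        · rintro (⟨c, _, rfl⟩ | hK)
          · exact absurd hx c.2
          · exact hK
        · exact Or.inr
      · have h4 := hmem Sᶜ ⟨x, hx⟩
        change x ∈ up Sᶜ ↔ _ at h4
        have h5 : x ∉ K := fun h => hx (mem_filter.1 h).2.2
        rw [h4]
        rcases x with i | i <;> simp [S, hx, h5]
    refine Prod.ext ?_ ?_
    · ext x
      constructor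
      · rintro ⟨a, ha, rfl⟩
        rcases (hm a).1 ha with ⟨h3, _⟩ | h3
        · rcases a with i | i
          · simp at h3
          · exact ⟨i, rfl⟩
        · exact (mem_filter.1 h3).2.2.2
      · rintro ⟨i, rfl⟩
        by_cases hx : b' i ∈ C
        · obtain ⟨j, hj⟩ := hx.1
          refine ⟨Sum.inl j, (hm _).2 (Or.inr (mem_filter.2 ⟨mem_univ _, rfl, ?_⟩)), hj⟩
          change b j ∈ C
          rw [hj]
          exact hx
        · exact ⟨Sum.inr i, (hm _).2 (Or.inl ⟨rfl, hx⟩), rfl⟩
    · ext x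
      constructor
      · rintro ⟨a, ha, rfl⟩
        have ha' : a ∉ up Sᶜ := by simpa using ha
        rw [hm] at ha'
        rcases a with i | i
        · exact ⟨i, rfl⟩
        · have h3 : g (Sum.inr i) ∈ C := by
            by_contra h
            exact ha' (Or.inl ⟨rfl, h⟩)
          exact h3.1
      · rintro ⟨i, rfl⟩
        by_cases hx : b i ∈ C
        · obtain ⟨j, hj⟩ := hx.2
          refine ⟨Sum.inr j, ?_, hj⟩
          have h3 : g (Sum.inr j) ∈ C := by
            change b' j ∈ C
            rw [hj]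
            exact hx
          have : Sum.inr j ∉ up Sᶜ := by
            rw [hm]
            rintro (⟨_, h⟩ | h)
            · exact h h3
            · simp [K] at h
          simpa using this
        · refine ⟨Sum.inl i, ?_, rfl⟩
          have : Sum.inl i ∉ up Sᶜ := by
            rw [hm]
            rintro (⟨h, _⟩ | h)
            · simp at h
            · exact hx (mem_filter.1 h).2.2
          simpa using this
  · intro i hi
    obtain ⟨ihF, hF', a, ha, d, hd, hcd⟩ := hstep i hi
    change H11SW.SymExchange M (P (up (c i))) (P (up (c (i + 1))))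
    change F (up (c (i + 1))) ≠ 0 at hF'
    rw [hcd, hupins, huper] at hF' ⊢
    exact hstepP _ _ _ ihF ((hmem _ _).2 ha) (fun h => hd ((hmem _ _).1 h)) hF'

end Pool.Agent.H47PS
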